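import Mathlib
set_option autoImplicit false
open Filter Topology Set MeasureTheory
open scoped ENNReal

namespace Pool.Agent.Results.MP_a60711_al.CountableCantorComplete

/-- A filter which is the neighbourhood filter of zero of a Hausdorff field structure. -/
structure FF {L : Type*} [Field L] (f : Filter L) : Prop where
  zero : pure 0 ≤ f
  add : Tendsto (fun p : L × L => p.1 + p.2) (f ×ˢ f) f
  neg : Tendsto (fun x : L => -x) f f
  mul : Tendsto (fun p : L × L => p.1 * p.2) (f ×ˢ f) f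
  smul : ∀ a : L, Tendsto (fun x : L => a * x) f f
  inv : Tendsto (fun x : L => (1 + x)⁻¹ - 1) f f
  sep : ∀ a : L, a ≠ 0 → {a}ᶜ ∈ f

theorem FF.iInf {L : Type*} [Field L] {ι : Type*} [Nonempty ι] {f : ι → Filter L}
    (h : ∀ i, FF (f i)) : FF (⨅ i, f i) := by
  refine ⟨?_, ?_, ?_, ?_, ?_, ?_, ?_⟩
  · exact le_iInf fun i => (h i).zero
  · exact tendsto_iInf.2 fun i => (h i).add.mono_left
      (Filter.prod_mono (iInf_le _ i) (iInf_le _ i))
  · exact tendsto_iInf.2 fun i => (h i).neg.mono_left (iInf_le _ i)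
  · exact tendsto_iInf.2 fun i => (h i).mul.mono_left
      (Filter.prod_mono (iInf_le _ i) (iInf_le _ i))
  · exact fun a => tendsto_iInf.2 fun i => ((h i).smul a).mono_left (iInf_le _ i)
  · exact tendsto_iInf.2 fun i => (h i).inv.mono_left (iInf_le _ i)
  · intro a ha
    exact (iInf_le f (Classical.arbitrary ι)) ((h _).sep a ha)

theorem FF.exists_topology {L : Type*} [Field L] {f : Filter L} (h : FF f) :
    ∃ τ : TopologicalSpace L, @IsTopologicalDivisionRing L _ τ ∧ @T2Space L τ ∧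
      @nhds L τ 0 = f := by
  set n : L → Filter L := fun a => map (fun x => a + x) f with hn
  let τ : TopologicalSpace L := TopologicalSpace.mkOfNhds n
  have h0 : pure ≤ n := by
    intro a
    have : map (fun x => a + x) (pure 0) ≤ map (fun x => a + x) f := map_mono h.zero
    simpa using this
  have hnh : ∀ a, @nhds L τ a = n a := by
    intro a
    refine TopologicalSpace.nhds_mkOfNhds n a h0 ?_
    intro a s hs
    -- s ∈ map (a + ·) f ; show ∀ᶠ y in map (a+·) f, s ∈ map (y + ·) f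
    have hs' : {x | a + x ∈ s} ∈ f := hs
    have h1 := h.add hs'
    obtain ⟨U, hU, V, hV, hUV⟩ := mem_prod_iff.1 h1
    show {y | s ∈ n y} ∈ map (fun x => a + x) f
    rw [mem_map]
    refine mem_of_superset hU ?_
    intro u hu
    show s ∈ map (fun x => (a + u) + x) f
    rw [mem_map]
    refine mem_of_superset hV ?_
    intro v hv
    have : (u, v) ∈ U ×ˢ V := ⟨hu, hv⟩
    have h3 := hUV this
    have h4 : a + (u + v) ∈ s := h3
    show (a + u) + v ∈ s
    rwa [add_assoc]
  have hz : @nhds L τ 0 = f := by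
    rw [hnh]; simp [hn]
  have hR : @IsTopologicalRing L τ _ := by
    let _ := τ
    refine IsTopologicalRing.of_nhds_zero ?_ ?_ ?_ ?_ ?_ ?_
    · rw [hz]; exact h.add
    · rw [hz]; exact h.neg
    · rw [hz]; exact h.mul
    · intro a; rw [hz]; exact h.smul a
    · intro a; rw [hz]
      have := h.smul a
      simpa [mul_comm] using this
    · intro a; rw [hz]; exact hnh a
  refine ⟨τ, ?_, ?_, hz⟩
  · let _ := τ
    have := hR
    refine { toContinuousInv₀ := ⟨?_⟩ }
    -- continuity of inversion at 1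
    have h1 : Tendsto (fun x : L => x⁻¹) (𝓝 1) (𝓝 1) := by
      have e1 : Tendsto (fun x : L => x - 1) (𝓝 1) (𝓝 0) := by
        have : Continuous fun x : L => x - 1 := by fun_prop
        have h2 := this.tendsto 1
        simpa using h2
      have e2 : Tendsto (fun x : L => (1 + x)⁻¹ - 1) (𝓝 0) (𝓝 0) := by
        rw [hz]; exact h.inv
      have e3 := e2.comp e1
      have e4 : Tendsto (fun x : L => x + 1) (𝓝 0) (𝓝 1) := by
        have : Continuous fun x : L => x + 1 := by fun_prop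
        have h2 := this.tendsto 0
        simpa using h2
      have e5 := e4.comp e3
      refine e5.congr ?_
      intro x
      simp
    intro x hx
    have e1 : Tendsto (fun y : L => x⁻¹ * y) (𝓝 x) (𝓝 1) := by
      have : Continuous fun y : L => x⁻¹ * y := by fun_prop
      have h2 := this.tendsto x
      simpa [inv_mul_cancel₀ hx] using h2
    have e2 := h1.comp e1
    have e3 : Tendsto (fun y : L => x⁻¹ * y) (𝓝 1) (𝓝 x⁻¹) := by
      have : Continuous fun y : L => x⁻¹ * y := by fun_prop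
      have h2 := this.tendsto 1
      simpa using h2
    have e4 := e3.comp e2
    show Tendsto (fun y => y⁻¹) (𝓝 x) (𝓝 x⁻¹)
    refine e4.congr ?_
    intro y
    simp only [Function.comp]
    rw [mul_inv, inv_inv, ← mul_assoc, inv_mul_cancel₀ hx, one_mul]
  · let _ := τ
    have := hR
    have : IsTopologicalAddGroup L := inferInstance
    have : T1Space L := by
      refine IsTopologicalAddGroup.t1Space L ?_
      rw [← isOpen_compl_iff, isOpen_iff_mem_nhds]
      intro a ha
      have ha' : a ≠ 0 := ha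
      rw [hnh]
      show ({0}ᶜ : Set L) ∈ map (fun x => a + x) f
      rw [mem_map]
      refine mem_of_superset (h.sep (-a) (neg_ne_zero.2 ha')) ?_
      intro x hx
      simp only [mem_preimage, mem_compl_iff, mem_singleton_iff]
      intro h5
      apply hx
      rw [mem_singleton_iff]
      linear_combination h5
    infer_instance

theorem FF.of_nhds {L : Type*} [Field L] [TopologicalSpace L] [IsTopologicalDivisionRing L]
    [T2Space L] : FF (𝓝 (0 : L)) := by
  refine ⟨pure_le_nhds 0, ?_, ?_, ?_, ?_, ?_, ?_⟩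
  · have : Continuous fun p : L × L => p.1 + p.2 := by fun_prop
    have h2 := this.tendsto (0, 0)
    rw [nhds_prod_eq] at h2
    simpa using h2
  · have : Continuous fun p : L => -p := by fun_prop
    have h2 := this.tendsto 0
    simpa using h2
  · have : Continuous fun p : L × L => p.1 * p.2 := by fun_prop
    have h2 := this.tendsto (0, 0)
    rw [nhds_prod_eq] at h2
    simpa using h2
  · intro a
    have : Continuous fun p : L => a * p := by fun_prop
    have h2 := this.tendsto 0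
    simpa using h2
  · have h1 : Tendsto (fun x : L => 1 + x) (𝓝 0) (𝓝 1) := by
      have : Continuous fun p : L => 1 + p := by fun_prop
      have h2 := this.tendsto 0
      simpa using h2
    have h2 : Tendsto (fun x : L => x⁻¹) (𝓝 1) (𝓝 1) := by
      have := (continuousAt_inv₀ (one_ne_zero : (1:L) ≠ 0))
      have h3 : Tendsto (fun x : L => x⁻¹) (𝓝 1) (𝓝 (1:L)⁻¹) := this
      simpa using h3
    have h3 := (h2.comp h1).sub_const 1
    simpa using h3
  · intro a ha
    exact isOpen_compl_singleton.mem_nhds (by simpa using ha.symm)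

/-- A normalised finitely subadditive monotone set function. -/
structure Sub (Ω : Type*) where
  m : Set Ω → ℝ≥0∞
  mono : ∀ {s t : Set Ω}, s ⊆ t → m s ≤ m t
  union : ∀ s t : Set Ω, m (s ∪ t) ≤ m s + m t
  empty : m ∅ = 0
  univ : 1 ≤ m Set.univ

namespace Sub
variable {Ω : Type*} (μ : Sub Ω)

/-- the filter of sets with null complement -/
def ae : Filter Ω where
  sets := {s | μ.m sᶜ = 0}
  univ_sets := by simp [μ.empty]
  sets_of_superset := by
    intro s t hs hst
    exact le_antisymm ((μ.mono (compl_subset_compl.2 hst)).trans (le_of_eq hs)) zero_le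
  inter_sets := by
    intro s t hs ht
    show μ.m (s ∩ t)ᶜ = 0
    rw [compl_inter]
    refine le_antisymm ((μ.union _ _).trans ?_) zero_le
    have h1 : μ.m sᶜ = 0 := hs
    have h2 : μ.m tᶜ = 0 := ht
    simp [h1, h2]

theorem eventually_ae {p : Ω → Prop} : (∀ᶠ ω in μ.ae, p ω) ↔ μ.m {ω | ¬ p ω} = 0 := Iff.rfl

theorem mono_ae {s t : Set Ω} (h : ∀ᶠ ω in μ.ae, ω ∈ s → ω ∈ t) : μ.m s ≤ μ.m t := by
  have h1 : s ⊆ t ∪ {ω | ¬ (ω ∈ s → ω ∈ t)} := by
    intro ω hω
    by_cases h2 : ω ∈ t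
    · exact Or.inl h2
    · right
      intro h3
      exact h2 (h3 hω)
  have h2 : μ.m {ω | ¬ (ω ∈ s → ω ∈ t)} = 0 := (μ.eventually_ae).1 h
  calc μ.m s ≤ μ.m (t ∪ {ω | ¬ (ω ∈ s → ω ∈ t)}) := μ.mono h1
    _ ≤ μ.m t + μ.m {ω | ¬ (ω ∈ s → ω ∈ t)} := μ.union _ _
    _ = μ.m t := by rw [h2, add_zero]

end Sub

/-- A function with values in `L` is tight if up to small sets its values are bounded. -/
def Tight {L Ω : Type*} [Field L] (𝓕 : Filter L) (μ : Sub Ω) (f : Ω → L) : Prop :=
  ∀ U ∈ 𝓕, ∀ ε : ℝ≥0∞, 0 < ε → ∃ V ∈ 𝓕, μ.m {ω | ¬ ∀ v ∈ V, f ω * v ∈ U} < ε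

theorem exists_half {ε : ℝ≥0∞} (h : 0 < ε) : ∃ δ : ℝ≥0∞, 0 < δ ∧ δ + δ ≤ ε := by
  refine ⟨ε / 2, ENNReal.half_pos h.ne', ?_⟩
  rw [ENNReal.add_halves]

theorem Tight.mul {L Ω : Type*} [Field L] {𝓕 : Filter L} {μ : Sub Ω} {f g : Ω → L}
    (hf : Tight 𝓕 μ f) (hg : Tight 𝓕 μ g) : Tight 𝓕 μ (fun ω => f ω * g ω) := by
  intro U hU ε hε
  obtain ⟨δ, hδ, hδε⟩ := exists_half hε
  obtain ⟨V, hV, hV'⟩ := hf U hU δ hδ
  obtain ⟨W, hW, hW'⟩ := hg V hV δ hδ
  refine ⟨W, hW, ?_⟩
  have hsub : {ω | ¬ ∀ v ∈ W, f ω * g ω * v ∈ U} ⊆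
      {ω | ¬ ∀ v ∈ V, f ω * v ∈ U} ∪ {ω | ¬ ∀ v ∈ W, g ω * v ∈ V} := by
    intro ω hω
    by_contra hcon
    rw [mem_union, not_or] at hcon
    obtain ⟨h1, h2⟩ := hcon
    simp only [mem_ofPred_eq, not_not] at h1 h2
    apply hω
    intro v hv
    rw [mul_assoc]
    exact h1 _ (h2 v hv)
  calc _ ≤ _ := μ.mono hsub
    _ ≤ _ := μ.union _ _
    _ < δ + δ := ENNReal.add_lt_add hV' hW'
    _ ≤ ε := hδε

theorem Tight.add {L Ω : Type*} [Field L] {𝓕 : Filter L} (h𝓕 : FF 𝓕) {μ : Sub Ω} {f g : Ω → L}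
    (hf : Tight 𝓕 μ f) (hg : Tight 𝓕 μ g) : Tight 𝓕 μ (fun ω => f ω + g ω) := by
  intro U hU ε hε
  obtain ⟨δ, hδ, hδε⟩ := exists_half hε
  obtain ⟨A, hA, B, hB, hAB⟩ := mem_prod_iff.1 (h𝓕.add hU)
  obtain ⟨V, hV, hV'⟩ := hf A hA δ hδ
  obtain ⟨W, hW, hW'⟩ := hg B hB δ hδ
  refine ⟨V ∩ W, inter_mem hV hW, ?_⟩
  have hsub : {ω | ¬ ∀ v ∈ V ∩ W, (f ω + g ω) * v ∈ U} ⊆
      {ω | ¬ ∀ v ∈ V, f ω * v ∈ A} ∪ {ω | ¬ ∀ v ∈ W, g ω * v ∈ B} := by
    intro ω hω
    by_contra hcon
    rw [mem_union, not_or] at hcon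
    obtain ⟨h1, h2⟩ := hcon
    simp only [mem_ofPred_eq, not_not] at h1 h2
    apply hω
    intro v hv
    rw [add_mul]
    have : (f ω * v, g ω * v) ∈ A ×ˢ B := ⟨h1 v hv.1, h2 v hv.2⟩
    exact hAB this
  calc _ ≤ _ := μ.mono hsub
    _ ≤ _ := μ.union _ _
    _ < δ + δ := ENNReal.add_lt_add hV' hW'
    _ ≤ ε := hδε

theorem Tight.const {L Ω : Type*} [Field L] {𝓕 : Filter L} (h𝓕 : FF 𝓕) {μ : Sub Ω} (a : L) :
    Tight 𝓕 μ (fun _ => a) := by
  intro U hU ε hε
  refine ⟨_, h𝓕.smul a hU, ?_⟩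
  have : {ω : Ω | ¬ ∀ v ∈ (fun x : L => a * x) ⁻¹' U, a * v ∈ U} = ∅ := by
    ext ω
    simp
  rw [this, μ.empty]
  exact hε

theorem Tight.congr {L Ω : Type*} [Field L] {𝓕 : Filter L} {μ : Sub Ω} {f g : Ω → L}
    (hf : Tight 𝓕 μ f) (h : ∀ᶠ ω in μ.ae, f ω = g ω) : Tight 𝓕 μ g := by
  intro U hU ε hε
  obtain ⟨V, hV, hV'⟩ := hf U hU ε hε
  refine ⟨V, hV, lt_of_le_of_lt ?_ hV'⟩
  refine μ.mono_ae (h.mono ?_)
  intro ω h1 h2
  simp only [mem_ofPred_eq] at h2 ⊢
  rwa [h1]

section
variable {R K L Ω : Type*} [CommRing R] [IsDomain R] [Field K] [Algebra R K] [IsFractionRing R K]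
  [Field L] (𝓕 : Filter L) (μ : Sub Ω) (ev : Ω → R →+* L)

/-- pointwise value of an element of the fraction field -/
noncomputable def val (g : K) (ω : Ω) : L :=
  ev ω (IsLocalization.sec (nonZeroDivisors R) g).1 /
    ev ω ((IsLocalization.sec (nonZeroDivisors R) g).2 : R)

variable {μ ev}
theorem val_eq (hnz : ∀ q : R, q ≠ 0 → ∀ᶠ ω in μ.ae, ev ω q ≠ 0) {g : K} {p q : R} (hq : q ≠ 0)
    (h : g * algebraMap R K q = algebraMap R K p) :
    ∀ᶠ ω in μ.ae, val ev g ω = ev ω p / ev ω q := by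
  have hs := IsLocalization.sec_spec (nonZeroDivisors R) g
  set a := (IsLocalization.sec (nonZeroDivisors R) g).1 with ha
  set b := (IsLocalization.sec (nonZeroDivisors R) g).2 with hb
  have hb0 : (b : R) ≠ 0 := nonZeroDivisors.coe_ne_zero b
  have hK : a * q = p * b := by
    apply IsFractionRing.injective R K
    rw [map_mul, map_mul, ← hs, ← h]
    ring
  filter_upwards [hnz q hq, hnz _ hb0] with ω h1 h2
  have h3 : ev ω a * ev ω q = ev ω p * ev ω b := by rw [← map_mul, ← map_mul, hK]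
  show ev ω a / ev ω b = ev ω p / ev ω q
  rw [div_eq_div_iff h2 h1, h3]

theorem exists_rep (hnz : ∀ q : R, q ≠ 0 → ∀ᶠ ω in μ.ae, ev ω q ≠ 0) (g : K) :
    ∃ p q : R, q ≠ 0 ∧ g * algebraMap R K q = algebraMap R K p ∧
      (∀ᶠ ω in μ.ae, val ev g ω = ev ω p / ev ω q) ∧ (∀ᶠ ω in μ.ae, ev ω q ≠ 0) := by
  have hs := IsLocalization.sec_spec (nonZeroDivisors R) g
  have hb0 : ((IsLocalization.sec (nonZeroDivisors R) g).2 : R) ≠ 0 :=
    nonZeroDivisors.coe_ne_zero _
  exact ⟨_, _, hb0, hs, val_eq hnz hb0 hs, hnz _ hb0⟩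

theorem val_add (hnz : ∀ q : R, q ≠ 0 → ∀ᶠ ω in μ.ae, ev ω q ≠ 0) (g h : K) :
    ∀ᶠ ω in μ.ae, val ev (g + h) ω = val ev g ω + val ev h ω := by
  obtain ⟨p, q, hq, e1, e2, e3⟩ := exists_rep hnz g
  obtain ⟨p', q', hq', e1', e2', e3'⟩ := exists_rep hnz h
  have e : (g + h) * algebraMap R K (q * q') = algebraMap R K (p * q' + p' * q) := by
    rw [map_mul, map_add, map_mul, map_mul, ← e1, ← e1']; ring
  filter_upwards [e2, e3, e2', e3', val_eq hnz (mul_ne_zero hq hq') e] with ω h1 h2 h3 h4 h5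
  rw [h1, h3, h5, map_mul, map_add, map_mul, map_mul]
  field_simp

theorem val_mul (hnz : ∀ q : R, q ≠ 0 → ∀ᶠ ω in μ.ae, ev ω q ≠ 0) (g h : K) :
    ∀ᶠ ω in μ.ae, val ev (g * h) ω = val ev g ω * val ev h ω := by
  obtain ⟨p, q, hq, e1, e2, e3⟩ := exists_rep hnz g
  obtain ⟨p', q', hq', e1', e2', e3'⟩ := exists_rep hnz h
  have e : (g * h) * algebraMap R K (q * q') = algebraMap R K (p * p') := by
    rw [map_mul, map_mul, ← e1, ← e1']; ring
  filter_upwards [e2, e3, e2', e3', val_eq hnz (mul_ne_zero hq hq') e] with ω h1 h2 h3 h4 h5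
  rw [h1, h3, h5, map_mul, map_mul]
  field_simp

theorem val_algebraMap (hnz : ∀ q : R, q ≠ 0 → ∀ᶠ ω in μ.ae, ev ω q ≠ 0) (p : R) :
    ∀ᶠ ω in μ.ae, val ev (algebraMap R K p) ω = ev ω p := by
  filter_upwards [val_eq (K := K) (g := algebraMap R K p) (p := p) hnz one_ne_zero (by simp)]
    with ω h1
  rw [h1, map_one, div_one]

theorem val_one (hnz : ∀ q : R, q ≠ 0 → ∀ᶠ ω in μ.ae, ev ω q ≠ 0) :
    ∀ᶠ ω in μ.ae, val ev (1 : K) ω = 1 := by
  filter_upwards [val_algebraMap (K := K) hnz 1] with ω h1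
  rwa [map_one, map_one] at h1

theorem val_zero (hnz : ∀ q : R, q ≠ 0 → ∀ᶠ ω in μ.ae, ev ω q ≠ 0) :
    ∀ᶠ ω in μ.ae, val ev (0 : K) ω = 0 := by
  filter_upwards [val_algebraMap (K := K) hnz 0] with ω h1
  rwa [map_zero, map_zero] at h1

theorem val_neg (hnz : ∀ q : R, q ≠ 0 → ∀ᶠ ω in μ.ae, ev ω q ≠ 0) (g : K) :
    ∀ᶠ ω in μ.ae, val ev (-g) ω = -val ev g ω := by
  filter_upwards [val_add hnz g (-g), val_zero (K := K) hnz] with ω h1 h2
  rw [add_neg_cancel, h2] at h1
  linear_combination -h1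

theorem val_inv (hnz : ∀ q : R, q ≠ 0 → ∀ᶠ ω in μ.ae, ev ω q ≠ 0) (g : K) :
    ∀ᶠ ω in μ.ae, val ev (g⁻¹) ω = (val ev g ω)⁻¹ := by
  by_cases hg : g = 0
  · subst hg
    filter_upwards [val_zero (K := K) hnz] with ω h1
    rw [inv_zero, h1, inv_zero]
  · filter_upwards [val_mul hnz g g⁻¹, val_one (K := K) hnz] with ω h1 h2
    rw [mul_inv_cancel₀ hg, h2] at h1
    exact eq_inv_of_mul_eq_one_right h1.symm

variable (μ ev)
/-- the filter of neighbourhoods of zero (convergence in measure) -/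
def NG (𝓕 : Filter L) : Filter K where
  sets := {S | ∃ U ∈ 𝓕, ∃ ε : ℝ≥0∞, 0 < ε ∧ {g : K | μ.m {ω | val ev g ω ∉ U} < ε} ⊆ S}
  univ_sets := ⟨univ, univ_mem, 1, by simp, subset_univ _⟩
  sets_of_superset := by
    rintro S T ⟨U, hU, ε, hε, h⟩ hST
    exact ⟨U, hU, ε, hε, h.trans hST⟩
  inter_sets := by
    rintro S T ⟨U, hU, ε, hε, h⟩ ⟨U', hU', ε', hε', h'⟩
    refine ⟨U ∩ U', inter_mem hU hU', min ε ε', lt_min hε hε', ?_⟩
    intro g hg
    have hg' : μ.m {ω | val ev g ω ∉ U ∩ U'} < min ε ε' := hg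
    constructor
    · apply h
      refine lt_of_le_of_lt (μ.mono ?_) (lt_of_lt_of_le hg' (min_le_left _ _))
      intro ω h1 h2
      exact h1 h2.1
    · apply h'
      refine lt_of_le_of_lt (μ.mono ?_) (lt_of_lt_of_le hg' (min_le_right _ _))
      intro ω h1 h2
      exact h1 h2.2

variable {μ ev 𝓕}
theorem mem_NG {U : Set L} (hU : U ∈ 𝓕) {ε : ℝ≥0∞} (hε : 0 < ε) :
    {g : K | μ.m {ω | val ev g ω ∉ U} < ε} ∈ (NG μ ev 𝓕 : Filter K) :=
  ⟨U, hU, ε, hε, Subset.rfl⟩

theorem tendsto_NG {α : Type*} {f : α → K} {l : Filter α} :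
    Tendsto f l (NG μ ev 𝓕) ↔ ∀ U ∈ 𝓕, ∀ ε : ℝ≥0∞, 0 < ε →
      ∀ᶠ y in l, μ.m {ω | val ev (f y) ω ∉ U} < ε := by
  constructor
  · intro h U hU ε hε
    exact h (mem_NG hU hε)
  · rintro h S ⟨U, hU, ε, hε, hS⟩
    exact Filter.mem_map.2 (mem_of_superset (h U hU ε hε) (fun y hy => hS hy))

theorem mainFF (h𝓕 : FF 𝓕) (hnz : ∀ q : R, q ≠ 0 → ∀ᶠ ω in μ.ae, ev ω q ≠ 0)
    (ht : ∀ g : K, Tight 𝓕 μ (val ev g)) : FF (NG μ ev 𝓕 : Filter K) := by
  refine ⟨?_, ?_, ?_, ?_, ?_, ?_, ?_⟩
  · rintro S ⟨U, hU, ε, hε, hS⟩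
    rw [mem_pure]
    apply hS
    have h0 : (0 : L) ∈ U := h𝓕.zero hU
    have : μ.m {ω | val ev (0 : K) ω ∉ U} = 0 := by
      rw [← μ.eventually_ae]
      filter_upwards [val_zero (K := K) hnz] with ω h1
      rwa [h1]
    show μ.m {ω | val ev (0 : K) ω ∉ U} < ε
    rw [this]
    exact hε
  · rw [tendsto_NG]
    intro U hU ε hε
    obtain ⟨δ, hδ, hδε⟩ := exists_half hε
    obtain ⟨A, hA, B, hB, hAB⟩ := mem_prod_iff.1 (h𝓕.add hU)
    refine mem_of_superset (prod_mem_prod (mem_NG hA hδ) (mem_NG hB hδ)) ?_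
    rintro ⟨g, h⟩ ⟨hg, hh⟩
    refine lt_of_lt_of_le (lt_of_le_of_lt ?_ (ENNReal.add_lt_add hg hh)) hδε
    refine le_trans (μ.mono_ae ?_) (μ.union _ _)
    filter_upwards [val_add hnz g h] with ω h1 h2
    by_contra hcon
    rw [mem_union, not_or] at hcon
    simp only [mem_ofPred_eq, not_not] at hcon
    apply h2
    show val ev (g + h) ω ∈ U
    rw [h1]
    have : (val ev g ω, val ev h ω) ∈ A ×ˢ B := hcon
    exact hAB this
  · rw [tendsto_NG]
    intro U hU ε hε
    have hU' : (fun x : L => -x) ⁻¹' U ∈ 𝓕 := h𝓕.neg hU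
    refine mem_of_superset (mem_NG hU' hε) ?_
    intro g hg
    refine lt_of_le_of_lt (μ.mono_ae ?_) hg
    filter_upwards [val_neg hnz g] with ω h1 h2 h3
    apply h2
    show val ev (-g) ω ∈ U
    rw [h1]
    exact h3
  · rw [tendsto_NG]
    intro U hU ε hε
    obtain ⟨δ, hδ, hδε⟩ := exists_half hε
    obtain ⟨A, hA, B, hB, hAB⟩ := mem_prod_iff.1 (h𝓕.mul hU)
    refine mem_of_superset (prod_mem_prod (mem_NG hA hδ) (mem_NG hB hδ)) ?_
    rintro ⟨g, h⟩ ⟨hg, hh⟩
    refine lt_of_lt_of_le (lt_of_le_of_lt ?_ (ENNReal.add_lt_add hg hh)) hδε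
    refine le_trans (μ.mono_ae ?_) (μ.union _ _)
    filter_upwards [val_mul hnz g h] with ω h1 h2
    by_contra hcon
    rw [mem_union, not_or] at hcon
    simp only [mem_ofPred_eq, not_not] at hcon
    apply h2
    show val ev (g * h) ω ∈ U
    rw [h1]
    have : (val ev g ω, val ev h ω) ∈ A ×ˢ B := hcon
    exact hAB this
  · intro a
    rw [tendsto_NG]
    intro U hU ε hε
    obtain ⟨δ, hδ, hδε⟩ := exists_half hε
    obtain ⟨V, hV, hV'⟩ := ht a U hU δ hδ
    refine mem_of_superset (mem_NG hV hδ) ?_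
    intro g hg
    refine lt_of_lt_of_le (lt_of_le_of_lt ?_ (ENNReal.add_lt_add hV' hg)) hδε
    refine le_trans (μ.mono_ae ?_) (μ.union _ _)
    filter_upwards [val_mul hnz a g] with ω h1 h2
    by_contra hcon
    rw [mem_union, not_or] at hcon
    simp only [mem_ofPred_eq, not_not] at hcon
    apply h2
    show val ev (a * g) ω ∈ U
    rw [h1]
    exact hcon.1 _ hcon.2
  · rw [tendsto_NG]
    intro U hU ε hε
    have hU' : (fun x : L => (1 + x)⁻¹ - 1) ⁻¹' U ∈ 𝓕 := h𝓕.inv hU
    refine mem_of_superset (mem_NG hU' hε) ?_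
    intro g hg
    refine lt_of_le_of_lt (μ.mono_ae ?_) hg
    have e : (1 + g)⁻¹ - 1 = (1 + g)⁻¹ + (-1) := sub_eq_add_neg _ _
    filter_upwards [val_add hnz (1 + g)⁻¹ (-1), val_inv hnz (1 + g), val_add hnz 1 g,
      val_neg hnz (1 : K), val_one (K := K) hnz] with ω h1 h2 h3 h4 h5 h6 h7
    apply h6
    show val ev ((1 + g)⁻¹ - 1) ω ∈ U
    rw [e, h1, h2, h3, h4, h5, ← sub_eq_add_neg]
    exact h7
  · intro g hg
    -- choose U with 1 ∉ U
    have hU := h𝓕.sep 1 one_ne_zero
    obtain ⟨V, hV, hV'⟩ := ht g⁻¹ _ hU (1 / 2) (by simp)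
    refine ⟨V, hV, 1 / 2, by simp, ?_⟩
    intro h hh heq
    rw [mem_singleton_iff] at heq
    subst heq
    have h1 : μ.m univ ≤ μ.m ({ω | ¬ ∀ v ∈ V, val ev h⁻¹ ω * v ∈ ({1}ᶜ : Set L)} ∪
        {ω | val ev h ω ∉ V}) := by
      refine μ.mono_ae ?_
      filter_upwards [val_mul hnz h⁻¹ h, val_one (K := K) hnz] with ω h2 h3 _
      by_contra hcon
      rw [mem_union, not_or] at hcon
      simp only [mem_ofPred_eq, not_not] at hcon
      have h4 := hcon.1 _ hcon.2
      rw [inv_mul_cancel₀ hg, h3] at h2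
      apply h4
      rw [mem_singleton_iff, ← h2]
    have h2 := (μ.univ.trans h1).trans (μ.union _ _)
    have h3 := lt_of_le_of_lt h2 (ENNReal.add_lt_add hV' hh)
    rw [ENNReal.add_halves] at h3
    exact lt_irrefl _ h3

end


section assembly
universe u

/-- the index set of the path -/
abbrev T : Type := Set.Ioo (0 : ℝ) 1

/-- the big field -/
abbrev BigK (F : Type u) [Field F] : Type u := FractionRing (MvPolynomial T F)

variable {F : Type u} [Field F]

/-- the generators -/
noncomputable def gen (t : T) : BigK F := algebraMap (MvPolynomial T F) (BigK F) (MvPolynomial.X t)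

/-- A filter on the big field which gives a topology of the required kind. -/
structure Nice (𝓗 : Filter F) (𝓖 : Filter (BigK F)) : Prop where
  ff : FF 𝓖
  com : comap (algebraMap F (BigK F)) 𝓖 = 𝓗
  path : ∀ t : T, Tendsto (fun s : T => gen s - (gen t : BigK F)) (𝓝 t) 𝓖

/-- evaluation of polynomials at random points -/
noncomputable def evX {L Ω : Type*} [Field L] (j : F →+* L) (X : T → Ω → L) (ω : Ω) :
    MvPolynomial T F →+* L := MvPolynomial.eval₂Hom j (fun t => X t ω)

theorem nice_of_data {L Ω : Type*} [Field L] {𝓕 : Filter L} (h𝓕 : FF 𝓕) (μ : Sub Ω)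
    (j : F →+* L) (X : T → Ω → L) (H1 : ∀ t, Tight 𝓕 μ (X t))
    (H2 : ∀ p : MvPolynomial T F, p ≠ 0 → ∀ᶠ ω in μ.ae, evX j X ω p ≠ 0)
    (H3 : ∀ p : MvPolynomial T F, p ≠ 0 → Tight 𝓕 μ (fun ω => (evX j X ω p)⁻¹))
    (H4 : ∀ t : T, ∀ U ∈ 𝓕, ∀ ε : ℝ≥0∞, 0 < ε →
      ∀ᶠ s in 𝓝 t, μ.m {ω | X s ω - X t ω ∉ U} < ε) :
    Nice (comap j 𝓕) (NG μ (evX j X) 𝓕 : Filter (BigK F)) := by
  have Hp : ∀ p : MvPolynomial T F, Tight 𝓕 μ (fun ω => evX j X ω p) := by
    intro p
    induction p using MvPolynomial.induction_on with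
    | C a =>
      have := Tight.const (μ := μ) h𝓕 (j a)
      simpa [evX] using this
    | add p q hp hq =>
      have := Tight.add h𝓕 hp hq
      simpa using this
    | mul_X p t hp =>
      have := Tight.mul hp (H1 t)
      simpa [evX] using this
  have Ht : ∀ g : BigK F, Tight 𝓕 μ (val (evX j X) g) := by
    intro g
    obtain ⟨p, q, hq, e1, e2, e3⟩ := exists_rep (μ := μ) (ev := evX j X) H2 g
    have h1 := Tight.mul (Hp p) (H3 q hq)
    refine h1.congr ?_
    filter_upwards [e2] with ω h2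
    rw [h2, div_eq_mul_inv]
  have Hff : FF (NG μ (evX j X) 𝓕 : Filter (BigK F)) := mainFF h𝓕 H2 Ht
  have hC : ∀ c : F, ∀ᶠ ω in μ.ae, val (evX j X) (algebraMap F (BigK F) c) ω = j c := by
    intro c
    have e : algebraMap F (BigK F) c = algebraMap (MvPolynomial T F) (BigK F) (MvPolynomial.C c) := by
      rw [IsScalarTower.algebraMap_apply F (MvPolynomial T F) (BigK F), MvPolynomial.algebraMap_eq]
    filter_upwards [val_algebraMap (K := BigK F) H2 (MvPolynomial.C c)] with ω h
    rw [e, h]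
    simp [evX]
  refine ⟨Hff, ?_, ?_⟩
  · apply le_antisymm
    · intro S hS
      obtain ⟨U, hU, hUS⟩ := mem_comap.1 hS
      refine mem_comap.2 ⟨_, mem_NG (K := BigK F) (μ := μ) (ev := evX j X) hU one_pos, ?_⟩
      intro c hc
      apply hUS
      have hc' : μ.m {ω | val (evX j X) (algebraMap F (BigK F) c) ω ∉ U} < 1 := hc
      by_contra hcon
      have h1 : μ.m univ ≤ μ.m {ω | val (evX j X) (algebraMap F (BigK F) c) ω ∉ U} := by
        refine μ.mono_ae ?_
        filter_upwards [hC c] with ω h2 _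
        rw [h2]
        exact hcon
      exact absurd (lt_of_le_of_lt (μ.univ.trans h1) hc') (lt_irrefl _)
    · intro S hS
      obtain ⟨W, ⟨U, hU, ε, hε, hW⟩, hWS⟩ := mem_comap.1 hS
      refine mem_comap.2 ⟨U, hU, ?_⟩
      intro c hc
      apply hWS
      apply hW
      have : μ.m {ω | val (evX j X) (algebraMap F (BigK F) c) ω ∉ U} = 0 := by
        rw [← μ.eventually_ae]
        filter_upwards [hC c] with ω h2
        rw [h2]
        exact hc
      show μ.m {ω | val (evX j X) (algebraMap F (BigK F) c) ω ∉ U} < ε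
      rw [this]
      exact hε
  · intro t
    rw [tendsto_NG]
    intro U hU ε hε
    refine (H4 t U hU ε hε).mono ?_
    intro s hs
    refine lt_of_le_of_lt (μ.mono_ae ?_) hs
    have e : gen s - (gen t : BigK F) = algebraMap (MvPolynomial T F) (BigK F)
      (MvPolynomial.X s - MvPolynomial.X t) := by
      rw [map_sub]; rfl
    filter_upwards [val_algebraMap (K := BigK F) H2 (MvPolynomial.X s - MvPolynomial.X t)]
      with ω h2 h3 h4
    apply h3
    rw [e, h2]
    simpa [evX] using h4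

/-- `F` embeds into a path-connected Hausdorff topological field. -/
def EmbedsPC (F : Type u) [Field F] [TopologicalSpace F] : Prop :=
  ∃ (K : Type u) (_ : Field K) (_ : TopologicalSpace K),
    IsTopologicalDivisionRing K ∧ T2Space K ∧ PathConnectedSpace K ∧
      ∃ f : F →+* K, Topology.IsEmbedding (⇑f)

theorem embeds_of_nice [TopologicalSpace F] [IsTopologicalDivisionRing F] {ι : Type*} [Nonempty ι]
    (𝓗 : ι → Filter F) (𝓖 : ι → Filter (BigK F)) (h : ∀ i, Nice (𝓗 i) (𝓖 i))
    (h0 : ⨅ i, 𝓗 i = 𝓝 (0 : F)) : EmbedsPC F := by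
  obtain ⟨τ, h1, h2, h3⟩ := (FF.iInf fun i => (h i).ff).exists_topology
  have hcom : comap (algebraMap F (BigK F)) (@nhds _ τ 0) = 𝓝 (0 : F) := by
    rw [h3, comap_iInf, ← h0]
    exact iInf_congr fun i => (h i).com
  have hpath : ∀ t : T, Tendsto (fun s : T => gen s - (gen t : BigK F)) (𝓝 t) (@nhds _ τ 0) := by
    intro t
    rw [h3]
    exact tendsto_iInf.2 fun i => (h i).path t
  refine ⟨BigK F, inferInstance, τ, h1, h2, ?_, algebraMap F (BigK F), ?_⟩
  · let _ := τ
    have hc : Continuous (gen : T → BigK F) := by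
      rw [continuous_iff_continuousAt]
      intro t
      have := (hpath t).add_const (gen t)
      simpa [ContinuousAt] using this
    have hJ : ∀ y : BigK F, Joined 0 y := by
      intro y
      have hI : ∀ r : unitInterval, (1/4 + (r : ℝ)/2) ∈ Set.Ioo (0:ℝ) 1 := by
        intro r
        have h4 := r.2.1
        have h5 := r.2.2
        constructor <;> linarith
      let c : unitInterval → T := fun r => ⟨1/4 + (r : ℝ)/2, hI r⟩
      have hcc : Continuous c := by
        refine Continuous.subtype_mk ?_ _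
        fun_prop
      have hne : (gen (c 1) : BigK F) - gen (c 0) ≠ 0 := by
        rw [sub_ne_zero]
        intro h4
        have h5 := IsFractionRing.injective (MvPolynomial T F) (BigK F) h4
        have h6 := MvPolynomial.X_injective h5
        have h7 : (1/4 + ((1 : unitInterval) : ℝ)/2) = 1/4 + ((0 : unitInterval) : ℝ)/2 :=
          congrArg Subtype.val h6
        norm_num at h7
      refine ⟨⟨⟨fun r => (gen (c r) - gen (c 0)) * (y / (gen (c 1) - gen (c 0))), ?_⟩, ?_, ?_⟩⟩
      · exact ((hc.comp hcc).sub continuous_const).mul continuous_const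
      · simp
      · show (gen (c 1) - gen (c 0)) * (y / (gen (c 1) - gen (c 0))) = y
        field_simp
    exact ⟨⟨0⟩, fun x y => (hJ x).symm.trans (hJ y)⟩
  · let _ := τ
    refine ⟨?_, (algebraMap F (BigK F)).injective⟩
    rw [isInducing_iff_nhds]
    intro x
    rw [← nhds_translation_sub x, ← nhds_translation_sub (algebraMap F (BigK F) x), ← hcom,
      comap_comap, comap_comap]
    congr 1
    funext y
    simp

end assembly

/-- rotation amounts -/
noncomputable def rot (n : ℕ) : ℝ := ((Nat.unpair n).2 : ℝ) / ((Nat.unpair n).1 + 1)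

/-- the `n`-th clock -/
noncomputable def clk (n : ℕ) (ω : ℝ) : ℝ := Int.fract (ω + rot n)

theorem clk_hit (m : ℕ) {s t : ℝ} (h0 : 0 ≤ s) (hst : s < t) (ht : t ≤ 1) :
    ∃ M, ∀ ω, ∃ n, m ≤ n ∧ n < M ∧ s ≤ clk n ω ∧ clk n ω < t := by
  obtain ⟨a, ha⟩ := exists_nat_one_div_lt (sub_pos.2 hst)
  -- enlarge a
  set b := max a m with hb
  have hb1 : (1 : ℝ) / (b + 1) < t - s := by
    refine lt_of_le_of_lt ?_ ha
    apply one_div_le_one_div_of_le (by positivity)
    have : (a : ℝ) ≤ b := by exact_mod_cast le_max_left a m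
    linarith
  refine ⟨(b + 1) ^ 2, fun ω => ?_⟩
  have hN : (0 : ℝ) < (b : ℝ) + 1 := by positivity
  set q : ℤ := ⌈((b : ℝ) + 1) * (s - ω)⌉ with hq
  have hq1 : ((b : ℝ) + 1) * (s - ω) ≤ q := Int.le_ceil _
  have hq2 : (q : ℝ) < ((b : ℝ) + 1) * (s - ω) + 1 := Int.ceil_lt_add_one _
  have hNz : (0 : ℤ) < (b : ℤ) + 1 := by positivity
  set k : ℤ := q % ((b : ℤ) + 1) with hk
  have hk0 : 0 ≤ k := Int.emod_nonneg _ hNz.ne'
  have hk1 : k < (b : ℤ) + 1 := Int.emod_lt_of_pos _ hNz
  obtain ⟨c, hc⟩ : ∃ c : ℕ, (c : ℤ) = k := ⟨k.toNat, Int.toNat_of_nonneg hk0⟩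
  have hcb : c ≤ b := by omega
  have hdiv : q = k + ((b : ℤ) + 1) * (q / ((b : ℤ) + 1)) := (Int.emod_add_mul_ediv q _).symm
  set l : ℤ := q / ((b : ℤ) + 1) with hl
  refine ⟨Nat.pair b c, ?_, ?_, ?_⟩
  · exact (le_max_right a m).trans (Nat.left_le_pair b c)
  · have : Nat.pair b c = b * b + b + c := by
      unfold Nat.pair
      rw [if_neg (by omega)]
    rw [this]
    nlinarith
  · have hrot : rot (Nat.pair b c) = (c : ℝ) / (b + 1) := by
      unfold rot
      rw [Nat.unpair_pair]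
    have hcr : (c : ℝ) = (k : ℝ) := by exact_mod_cast congrArg (fun x : ℤ => (x : ℝ)) hc
    have hqr : (q : ℝ) = k + ((b : ℝ) + 1) * l := by exact_mod_cast congrArg (fun x : ℤ => (x : ℝ)) hdiv
    have e1 : ω + rot (Nat.pair b c) = (ω + q / ((b : ℝ) + 1)) - l := by
      rw [hrot, hcr, hqr]
      field_simp
      ring
    have hin1 : s ≤ ω + q / ((b : ℝ) + 1) := by
      have : s - ω ≤ q / ((b : ℝ) + 1) := by
        rw [le_div_iff₀ hN]; linarith
      linarith
    have hin2 : ω + q / ((b : ℝ) + 1) < t := by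
      have h3 : (q : ℝ) / ((b : ℝ) + 1) < (s - ω) + 1 / ((b : ℝ) + 1) := by
        rw [div_lt_iff₀ hN]
        have : (s - ω + 1 / ((b : ℝ) + 1)) * ((b : ℝ) + 1) = ((b : ℝ) + 1) * (s - ω) + 1 := by
          field_simp
        rw [this]; exact hq2
      linarith
    have e2 : clk (Nat.pair b c) ω = ω + q / ((b : ℝ) + 1) := by
      unfold clk
      rw [e1, Int.fract_sub_intCast, Int.fract_eq_self]
      exact ⟨h0.trans hin1, hin2.trans_le ht⟩
    rw [e2]
    exact ⟨hin1, hin2⟩

theorem clk_nonneg (n : ℕ) (ω : ℝ) : 0 ≤ clk n ω := Int.fract_nonneg _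
theorem clk_lt_one (n : ℕ) (ω : ℝ) : clk n ω < 1 := Int.fract_lt_one _

/-- probability of a clock in a short interval -/
theorem clk_vol (n : ℕ) {s t : ℝ} (hst : s ≤ t) :
    volume ({ω | s ≤ clk n ω ∧ clk n ω < t} ∩ Ico (0:ℝ) 1) ≤ ENNReal.ofReal (2 * (t - s)) := by
  set f : ℤ := ⌊rot n⌋ with hf
  have hsub : {ω | s ≤ clk n ω ∧ clk n ω < t} ∩ Ico (0:ℝ) 1 ⊆
      Ico (s - rot n + f) (t - rot n + f) ∪ Ico (s - rot n + (f + 1)) (t - rot n + (f + 1)) := by
    rintro ω ⟨⟨h1, h2⟩, h3, h4⟩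
    have hr1 : (f : ℝ) ≤ rot n := Int.floor_le _
    have hr2 : rot n < f + 1 := Int.lt_floor_add_one _
    have hw : clk n ω = ω + rot n - ⌊ω + rot n⌋ := rfl
    have hfl : ⌊ω + rot n⌋ = f ∨ ⌊ω + rot n⌋ = f + 1 := by
      have h5 : f ≤ ⌊ω + rot n⌋ := by
        rw [Int.le_floor]; linarith
      have h6 : ⌊ω + rot n⌋ < f + 2 := by
        rw [Int.floor_lt]; push_cast; linarith
      omega
    rw [hw] at h1 h2
    rcases hfl with h | h
    · left
      rw [h] at h1 h2
      constructor <;> linarith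
    · right
      rw [h] at h1 h2
      push_cast at h1 h2
      constructor <;> linarith
  calc _ ≤ volume (Ico (s - rot n + f) (t - rot n + f) ∪
          Ico (s - rot n + (f + 1)) (t - rot n + (f + 1))) := measure_mono hsub
    _ ≤ volume (Ico (s - rot n + f) (t - rot n + f)) +
          volume (Ico (s - rot n + (f + 1)) (t - rot n + (f + 1))) := measure_union_le _ _
    _ = ENNReal.ofReal (t - s) + ENNReal.ofReal (t - s) := by
        rw [Real.volume_Ico, Real.volume_Ico]
        congr 2 <;> ring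
    _ = ENNReal.ofReal (2 * (t - s)) := by
        rw [← ENNReal.ofReal_add (by linarith) (by linarith)]
        congr 1; ring

theorem clk_measurable (n : ℕ) : Measurable (clk n) := by
  unfold clk
  fun_prop


section countable
variable {L : Type*} [Field L] [TopologicalSpace L] [IsTopologicalDivisionRing L] [T2Space L]

open MvPolynomial in
/-- shifting some coordinates -/
def shiftBy {k : ℕ} (z : Fin k → L) (B : Finset (Fin k)) (u : L) : Fin k → L :=
  fun a => z a + if a ∈ B then u else 0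

open MvPolynomial in
/-- the requirement on the `n`-th term -/
def Good (U : ℕ → Set L) (P : ℕ → Σ k, MvPolynomial (Fin k) L) (n : ℕ) (S : Finset L) (u : L) :
    Prop :=
  u ∈ U n ∧ ∀ i ≤ n, ∀ z : Fin (P i).1 → L, (∀ a, z a ∈ S) → ∀ B : Finset (Fin (P i).1),
    ((∃ y, eval (shiftBy z B y) (P i).2 ≠ 0) → eval (shiftBy z B u) (P i).2 ≠ 0) ∧
    (eval z (P i).2 ≠ 0 →
      (eval (shiftBy z B u) (P i).2)⁻¹ - (eval z (P i).2)⁻¹ ∈ U n)

open MvPolynomial in
theorem exists_good (U : ℕ → Set L) (hU : ∀ n, U n ∈ 𝓝 (0 : L))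
    (P : ℕ → Σ k, MvPolynomial (Fin k) L) [(𝓝[≠] (0 : L)).NeBot] (n : ℕ) (S : Finset L) :
    ∃ u, Good U P n S u := by
  classical
  have key : ∀ (k : ℕ) (p : MvPolynomial (Fin k) L) (z : Fin k → L) (B : Finset (Fin k)),
      ∀ᶠ u in 𝓝[≠] (0 : L), ((∃ y, eval (shiftBy z B y) p ≠ 0) → eval (shiftBy z B u) p ≠ 0) ∧
        (eval z p ≠ 0 → (eval (shiftBy z B u) p)⁻¹ - (eval z p)⁻¹ ∈ U n) := by
    intro k p z B
    set q : Polynomial L := MvPolynomial.aeval
      (fun a => Polynomial.C (z a) + if a ∈ B then Polynomial.X else 0) p with hq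
    have hqe : ∀ u, Polynomial.eval u q = eval (shiftBy z B u) p := by
      intro u
      rw [hq, MvPolynomial.aeval_def, ← Polynomial.coe_evalRingHom, MvPolynomial.hom_eval₂]
      rw [MvPolynomial.eval, MvPolynomial.coe_eval₂Hom]
      congr 1
      · ext x; simp
      · funext a
        by_cases ha : a ∈ B <;> simp [shiftBy, ha]
    have h0 : shiftBy z B 0 = z := by
      funext a; simp [shiftBy]
    refine Filter.Eventually.and ?_ ?_
    · by_cases hy : ∃ y, eval (shiftBy z B y) p ≠ 0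
      · obtain ⟨y, hy⟩ := hy
        have hq0 : q ≠ 0 := by
          intro h
          apply hy
          rw [← hqe, h, Polynomial.eval_zero]
        have hfin : {u | Polynomial.eval u q = 0}.Finite := by
          refine (q.roots.toFinset.finite_toSet).subset ?_
          intro u hu
          simp only [Finset.mem_coe, Multiset.mem_toFinset]
          rw [Polynomial.mem_roots hq0]
          exact hu
        have h1 : {u | Polynomial.eval u q = 0}ᶜ ∈ 𝓝[≠] (0 : L) :=
          nhdsNE_le_cofinite _ hfin.compl_mem_cofinite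
        filter_upwards [h1] with u hu _
        rw [← hqe]
        exact hu
      · exact Eventually.of_forall fun u h => absurd h hy
    · by_cases hz : eval z p = 0
      · exact Eventually.of_forall fun u h => absurd hz h
      · have hc : Tendsto (fun u => (Polynomial.eval u q)⁻¹ - (eval z p)⁻¹) (𝓝 0) (𝓝 0) := by
          have h1 : Tendsto (fun u => Polynomial.eval u q) (𝓝 0) (𝓝 (eval z p)) := by
            have := (Polynomial.continuous q).tendsto 0
            rwa [hqe, h0] at this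
          have h2 := (h1.inv₀ hz).sub_const ((eval z p)⁻¹)
          simpa using h2
        have h3 := hc (hU n)
        have h4 : ∀ᶠ u in 𝓝[≠] (0 : L), (Polynomial.eval u q)⁻¹ - (eval z p)⁻¹ ∈ U n :=
          nhdsWithin_le_nhds h3
        filter_upwards [h4] with u hu _
        rw [← hqe]
        exact hu
  have h1 : ∀ᶠ u in 𝓝[≠] (0 : L), u ∈ U n := nhdsWithin_le_nhds (hU n)
  have h2 : ∀ᶠ u in 𝓝[≠] (0 : L), ∀ i ∈ Finset.range (n + 1),
      ∀ z ∈ Fintype.piFinset (fun _ : Fin (P i).1 => S), ∀ B : Finset (Fin (P i).1),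
      ((∃ y, eval (shiftBy z B y) (P i).2 ≠ 0) → eval (shiftBy z B u) (P i).2 ≠ 0) ∧
      (eval z (P i).2 ≠ 0 →
      (eval (shiftBy z B u) (P i).2)⁻¹ - (eval z (P i).2)⁻¹ ∈ U n) := by
    rw [Filter.eventually_all_finset]
    intro i _
    rw [Filter.eventually_all_finset]
    intro z _
    rw [Filter.eventually_all]
    intro B
    exact key _ _ z B
  obtain ⟨u, h3, h4⟩ := (h1.and h2).exists
  refine ⟨u, h3, ?_⟩
  intro i hi z hz B
  exact h4 i (by simp; omega) z (by simpa using hz) B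

/-- value sets -/
noncomputable def seqS [DecidableEq L] (f : ℕ → Finset L → L) : ℕ → Finset L
  | 0 => {0}
  | n + 1 => seqS f n ∪ (seqS f n).image (fun x => x + f n (seqS f n))

/-- the random sums -/
noncomputable def XS (u : ℕ → L) (t : T) (ω : ℝ × ℕ) : L :=
  ∑ n ∈ Finset.range ω.2, if clk n ω.1 < t then u n else 0

/-- upper limit of Lebesgue measures -/
noncomputable def limSub : Sub (ℝ × ℕ) where
  m E := ⨅ N : ℕ, ⨆ M : ℕ, ⨆ _ : N ≤ M, volume ({ω : ℝ | (ω, M) ∈ E} ∩ Ico (0:ℝ) 1)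
  mono := by
    intro s t hst
    refine iInf_mono fun N => iSup₂_mono fun M _ => measure_mono ?_
    rintro ω ⟨h1, h2⟩
    exact ⟨hst h1, h2⟩
  union := by
    intro s t
    rw [ENNReal.iInf_add_iInf]
    · refine iInf_mono fun N => ?_
      refine iSup₂_le fun M hM => ?_
      calc volume ({ω : ℝ | (ω, M) ∈ s ∪ t} ∩ Ico (0:ℝ) 1)
          ≤ volume (({ω : ℝ | (ω, M) ∈ s} ∩ Ico (0:ℝ) 1) ∪ ({ω : ℝ | (ω, M) ∈ t} ∩ Ico (0:ℝ) 1)) := by
            refine measure_mono ?_
            rintro ω ⟨h1 | h1, h2⟩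
            · exact Or.inl ⟨h1, h2⟩
            · exact Or.inr ⟨h1, h2⟩
        _ ≤ _ := measure_union_le _ _
        _ ≤ _ := add_le_add
            (le_iSup₂ (f := fun M (_ : N ≤ M) => volume ({ω : ℝ | (ω, M) ∈ s} ∩ Ico (0:ℝ) 1)) M hM)
            (le_iSup₂ (f := fun M (_ : N ≤ M) => volume ({ω : ℝ | (ω, M) ∈ t} ∩ Ico (0:ℝ) 1)) M hM)
    · intro i j
      refine ⟨max i j, add_le_add ?_ ?_⟩
      · exact biSup_mono fun M h => (le_max_left i j).trans h
      · exact biSup_mono fun M h => (le_max_right i j).trans h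
  empty := by simp
  univ := by
    refine le_iInf fun N => ?_
    refine le_iSup₂_of_le N le_rfl ?_
    simp

theorem limSub_zero {E : Set (ℝ × ℕ)} (N : ℕ) (h : ∀ M, N ≤ M → ∀ ω, (ω, M) ∉ E) :
    limSub.m E = 0 := by
  refine le_antisymm ?_ zero_le
  refine (iInf_le _ N).trans ?_
  refine iSup₂_le fun M hM => ?_
  have : {ω : ℝ | (ω, M) ∈ E} = ∅ := by
    ext ω
    simp [h M hM ω]
  rw [this]
  simp

theorem limSub_le {E : Set (ℝ × ℕ)} {c : ℝ≥0∞}
    (h : ∀ M, volume ({ω : ℝ | (ω, M) ∈ E} ∩ Ico (0:ℝ) 1) ≤ c) : limSub.m E ≤ c :=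
  (iInf_le _ 0).trans (iSup₂_le fun M _ => h M)

theorem telescoping {U : ℕ → Set L} (hUU : ∀ n, ∀ x ∈ U (n + 1), ∀ y ∈ U (n + 1), x + y ∈ U n)
    (h0 : ∀ n, (0 : L) ∈ U n) {a : ℕ → L} {N₀ : ℕ} (ha : ∀ n, N₀ ≤ n → a n ∈ U n) :
    ∀ d N, N₀ ≤ N + 1 → ∑ i ∈ Finset.range d, a (N + 1 + i) ∈ U N := by
  intro d
  induction d with
  | zero => intro N _; simpa using h0 N
  | succ d ih =>
    intro N hN
    rw [Finset.sum_range_succ']
    have h1 := ih (N + 1) (by omega)
    have h2 := ha (N + 1) hN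
    have h3 : ∑ i ∈ Finset.range d, a (N + 1 + (i + 1)) = ∑ i ∈ Finset.range d, a (N + 1 + 1 + i) := by
      refine Finset.sum_congr rfl fun i _ => ?_
      congr 1; omega
    rw [h3, add_zero]
    exact hUU N _ h1 _ h2

theorem tight_of_cauchy {U : ℕ → Set L} (hU : (𝓝 (0 : L)).HasAntitoneBasis U)
    (hUU : ∀ n, ∀ x ∈ U (n + 1), ∀ y ∈ U (n + 1), x + y ∈ U n) (g : ℝ × ℕ → L) (N₀ : ℕ)
    (hc : ∀ N, N₀ ≤ N → ∀ ω, g (ω, N + 1) - g (ω, N) ∈ U N)
    (hfin : ∀ N, (range fun ω : ℝ => g (ω, N)).Finite) : Tight (𝓝 (0 : L)) limSub g := by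
  intro W hW ε hε
  have h0 : ∀ n, (0 : L) ∈ U n := fun n => mem_of_mem_nhds (hU.mem n)
  have hFF : FF (𝓝 (0 : L)) := FF.of_nhds
  obtain ⟨W1, hW1, W2, hW2, hWW⟩ := mem_prod_iff.1 (hFF.add hW)
  obtain ⟨A, hA, B, hB, hAB⟩ := mem_prod_iff.1 (hFF.mul hW2)
  obtain ⟨N, -, hN⟩ := hU.1.mem_iff.1 hA
  set N1 := max N N₀ with hN1
  have hUN1 : U N1 ⊆ A := (hU.antitone (le_max_left N N₀)).trans hN
  have hcauchy : ∀ d ω, g (ω, N1 + 1 + d) - g (ω, N1 + 1) ∈ U N1 := by
    intro d ω
    have h1 := telescoping hUU h0 (a := fun n => g (ω, n + 1) - g (ω, n)) (N₀ := N₀)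
      (fun n hn => hc n hn ω) d N1 (by have := le_max_right N N₀; omega)
    have h2 : ∑ i ∈ Finset.range d, (g (ω, N1 + 1 + i + 1) - g (ω, N1 + 1 + i)) =
        g (ω, N1 + 1 + d) - g (ω, N1 + 1) := by
      have := Finset.sum_range_sub (fun i => g (ω, N1 + 1 + i)) d
      simpa [add_assoc] using this
    rw [← h2]
    exact h1
  set V0 : Set L := ⋂ y ∈ range (fun ω : ℝ => g (ω, N1 + 1)), {v | y * v ∈ W1} with hV0
  have hV0m : V0 ∈ 𝓝 (0 : L) := by
    rw [hV0, Filter.biInter_mem (hfin _)]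
    intro y _
    exact hFF.smul y hW1
  refine ⟨V0 ∩ B, inter_mem hV0m hB, ?_⟩
  rw [limSub_zero (N1 + 1)]
  · exact hε
  · intro M hM ω hmem
    obtain ⟨d, rfl⟩ := Nat.exists_eq_add_of_le hM
    apply hmem
    rintro v ⟨hv1, hv2⟩
    have h3 : g (ω, N1 + 1) * v ∈ W1 := by
      have := mem_iInter₂.1 hv1 (g (ω, N1 + 1)) ⟨ω, rfl⟩
      exact this
    have h4 : (g (ω, N1 + 1 + d) - g (ω, N1 + 1)) * v ∈ W2 :=
      hAB (show ((g (ω, N1 + 1 + d) - g (ω, N1 + 1)), v) ∈ A ×ˢ B from
        ⟨hUN1 (hcauchy d ω), hv2⟩)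
    have h5 : g (ω, N1 + 1) * v + (g (ω, N1 + 1 + d) - g (ω, N1 + 1)) * v ∈ W :=
      hWW (show (g (ω, N1 + 1) * v, (g (ω, N1 + 1 + d) - g (ω, N1 + 1)) * v) ∈ W1 ×ˢ W2 from
        ⟨h3, h4⟩)
    have h6 : g (ω, N1 + 1) * v + (g (ω, N1 + 1 + d) - g (ω, N1 + 1)) * v =
        g (ω, N1 + 1 + d) * v := by ring
    rwa [h6] at h5

end countable


section countable2
variable {L : Type*} [Field L] [TopologicalSpace L] [IsTopologicalDivisionRing L] [T2Space L]

/-- vectors of finite sums -/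
noncomputable def zvec (u : ℕ → L) {k : ℕ} (t : Fin k → T) (ω : ℝ) (N : ℕ) : Fin k → L :=
  fun a => XS u (t a) (ω, N)

theorem XS_succ (u : ℕ → L) (t : T) (ω : ℝ) (N : ℕ) :
    XS u t (ω, N + 1) = XS u t (ω, N) + if clk N ω < t then u N else 0 := by
  unfold XS
  rw [Finset.sum_range_succ]

theorem zvec_succ (u : ℕ → L) {k : ℕ} (t : Fin k → T) (ω : ℝ) (N : ℕ) :
    zvec u t ω (N + 1) =
      shiftBy (zvec u t ω N) (Finset.univ.filter fun a => clk N ω < t a) (u N) := by
  funext a
  simp only [zvec, shiftBy, XS_succ, Finset.mem_filter, Finset.mem_univ, true_and]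

/-- all the data of the construction -/
structure Constr (U : ℕ → Set L) (P : ℕ → Σ k, MvPolynomial (Fin k) L) (u : ℕ → L)
    (S : ℕ → Finset L) : Prop where
  zero : (0 : L) ∈ S 0
  stay : ∀ n, ∀ x ∈ S n, x ∈ S (n + 1)
  step : ∀ n, ∀ x ∈ S n, x + u n ∈ S (n + 1)
  good : ∀ n, Good U P n (S n) (u n)

theorem exists_constr (U : ℕ → Set L) (hU : ∀ n, U n ∈ 𝓝 (0 : L))
    (P : ℕ → Σ k, MvPolynomial (Fin k) L) [(𝓝[≠] (0 : L)).NeBot] :
    ∃ u S, Constr U P u S := by
  classical
  choose f hf using fun n S => exists_good U hU P n S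
  refine ⟨fun n => f n (seqS f n), seqS f, ?_, ?_, ?_, ?_⟩
  · simp [seqS]
  · intro n x hx
    simp only [seqS, Finset.mem_union]
    exact Or.inl hx
  · intro n x hx
    simp only [seqS, Finset.mem_union]
    exact Or.inr (Finset.mem_image_of_mem _ hx)
  · intro n
    exact hf n _

variable {U : ℕ → Set L} {P : ℕ → Σ k, MvPolynomial (Fin k) L} {u : ℕ → L} {S : ℕ → Finset L}

theorem XS_mem (hC : Constr U P u S) (t : T) (ω : ℝ) (N : ℕ) : XS u t (ω, N) ∈ S N := by
  induction N with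
  | zero => simpa [XS] using hC.zero
  | succ N ih =>
    rw [XS_succ]
    by_cases h : clk N ω < t
    · rw [if_pos h]; exact hC.step N _ ih
    · rw [if_neg h, add_zero]; exact hC.stay N _ ih

open MvPolynomial in
theorem persist1 (hC : Constr U P u S) (q : Σ k, MvPolynomial (Fin k) L) (i : ℕ) (hi : P i = q)
    (t : Fin q.1 → T) (ω : ℝ) (N : ℕ) (hN : i ≤ N) (h : eval (zvec u t ω N) q.2 ≠ 0) :
    eval (zvec u t ω (N + 1)) q.2 ≠ 0 ∧
      (eval (zvec u t ω (N + 1)) q.2)⁻¹ - (eval (zvec u t ω N) q.2)⁻¹ ∈ U N := by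
  subst hi
  have h1 := (hC.good N).2 i hN (zvec u t ω N) (fun a => XS_mem hC (t a) ω N)
    (Finset.univ.filter fun a => clk N ω < t a)
  rw [zvec_succ]
  refine ⟨h1.1 ⟨0, ?_⟩, h1.2 h⟩
  have : shiftBy (zvec u t ω N) (Finset.univ.filter fun a => clk N ω < t a) 0 = zvec u t ω N := by
    funext a; simp [shiftBy]
  rwa [this]

open MvPolynomial in
theorem persist (hC : Constr U P u S) (q : Σ k, MvPolynomial (Fin k) L) (i : ℕ) (hi : P i = q)
    (t : Fin q.1 → T) (ω : ℝ) (N : ℕ) (hN : i ≤ N) (h : eval (zvec u t ω N) q.2 ≠ 0) (d : ℕ) :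
    eval (zvec u t ω (N + d)) q.2 ≠ 0 := by
  induction d with
  | zero => exact h
  | succ d ih => exact (persist1 hC q i hi t ω (N + d) (by omega) ih).1

open MvPolynomial in
theorem create (hC : Constr U P u S) (q : Σ k, MvPolynomial (Fin k) L) (i : ℕ) (hi : P i = q)
    (t : Fin q.1 → T) (ω : ℝ) (N : ℕ) (hN : i ≤ N)
    (h : ∃ y, eval (shiftBy (zvec u t ω N) (Finset.univ.filter fun a => clk N ω < t a) y) q.2 ≠ 0) :
    eval (zvec u t ω (N + 1)) q.2 ≠ 0 := by
  subst hi
  rw [zvec_succ]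
  exact ((hC.good N).2 i hN (zvec u t ω N) (fun a => XS_mem hC (t a) ω N)
    (Finset.univ.filter fun a => clk N ω < t a)).1 h

open MvPolynomial in
theorem nonvanish [(𝓝[≠] (0 : L)).NeBot] (hP : Function.Surjective P) (hC : Constr U P u S) :
    ∀ (k : ℕ) (p : MvPolynomial (Fin k) L), p ≠ 0 → ∀ t : Fin k → T, StrictAnti t →
      ∃ N₀, ∀ N, N₀ ≤ N → ∀ ω, eval (zvec u t ω N) p ≠ 0 := by
  have hinf : Infinite L := by
    have := infinite_of_mem_nhds (0 : L) univ_mem
    exact Set.infinite_univ_iff.1 this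
  intro k
  induction k with
  | zero =>
    intro p hp t _
    refine ⟨0, fun N _ ω => ?_⟩
    rw [MvPolynomial.eq_C_of_isEmpty p] at hp ⊢
    rw [eval_C]
    intro h
    apply hp
    rw [h, C_0]
  | succ k ih =>
    intro p hp t ht
    set Q := finSuccEquiv L k p with hQ
    have hQ0 : Q ≠ 0 := by
      rw [hQ]
      exact (map_ne_zero_iff _ (finSuccEquiv L k).injective).2 hp
    have hc : Q.leadingCoeff ≠ 0 := Polynomial.leadingCoeff_ne_zero.2 hQ0
    obtain ⟨N1, hN1⟩ := ih Q.leadingCoeff hc (fun a => t a.succ)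
      (fun a b hab => ht (Fin.succ_lt_succ_iff.2 hab))
    obtain ⟨lo, hlo0, hlo1, hlo2⟩ : ∃ lo : ℝ, 0 ≤ lo ∧ lo < t 0 ∧ ∀ a : Fin k, (t a.succ : ℝ) ≤ lo := by
      cases k with
      | zero => exact ⟨0, le_rfl, (t 0).2.1, fun a => a.elim0⟩
      | succ k =>
        refine ⟨t 1, (t 1).2.1.le, ?_, ?_⟩
        · exact ht (by simp : (0 : Fin (k + 2)) < 1)
        · intro a
          have h1 : (1 : Fin (k + 2)) ≤ a.succ := by
            rw [Fin.le_def]; simp
          exact ht.antitone h1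
    obtain ⟨i, hi⟩ := hP ⟨k + 1, p⟩
    obtain ⟨M, hM⟩ := clk_hit (max N1 i) hlo0 hlo1 (t 0).2.2.le
    refine ⟨M, fun N hN ω => ?_⟩
    obtain ⟨n, hn1, hn2, hn3, hn4⟩ := hM ω
    have hB : (Finset.univ.filter fun a : Fin (k + 1) => clk n ω < t a) = {0} := by
      ext a
      simp only [Finset.mem_filter, Finset.mem_univ, true_and, Finset.mem_singleton]
      constructor
      · intro h
        by_contra ha
        obtain ⟨b, rfl⟩ := Fin.exists_succ_eq.2 ha
        have := hlo2 b
        linarith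
      · rintro rfl
        exact hn4
    have htail : eval (zvec u (fun a => t a.succ) ω n) Q.leadingCoeff ≠ 0 :=
      hN1 n ((le_max_left _ _).trans hn1) ω
    have hR : Polynomial.map (eval (zvec u (fun a => t a.succ) ω n)) Q ≠ 0 := by
      intro h
      have h1 := congrArg (fun q => Polynomial.coeff q Q.natDegree) h
      simp only [Polynomial.coeff_map, Polynomial.coeff_zero] at h1
      exact htail h1
    obtain ⟨y, hy⟩ : ∃ y, Polynomial.eval y
        (Polynomial.map (eval (zvec u (fun a => t a.succ) ω n)) Q) ≠ 0 := by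
      by_contra hcon
      push Not at hcon
      apply hR
      exact Polynomial.funext (fun y => by rw [hcon y, Polynomial.eval_zero])
    have h1 : eval (zvec u t ω (n + 1)) p ≠ 0 := by
      refine create hC ⟨k + 1, p⟩ i hi t ω n ((le_max_right _ _).trans hn1) ?_
      refine ⟨y - zvec u t ω n 0, ?_⟩
      rw [hB]
      have e : shiftBy (zvec u t ω n) {0} (y - zvec u t ω n 0) =
          (Fin.cons y (zvec u (fun a => t a.succ) ω n) : Fin (k + 1) → L) := by
        funext a
        refine Fin.cases ?_ ?_ a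
        · simp [shiftBy]
        · intro b
          simp [shiftBy, zvec]
      show eval (shiftBy (zvec u t ω n) {0} (y - zvec u t ω n 0)) p ≠ 0
      rw [e, eval_eq_eval_mv_eval']
      exact hy
    obtain ⟨d, rfl⟩ := Nat.exists_eq_add_of_le (show n + 1 ≤ N by omega)
    exact persist hC ⟨k + 1, p⟩ i hi t ω (n + 1) (by have := le_max_right N1 i; omega) h1 d

end countable2


section countable3

/-- every nonzero polynomial in our variables is a polynomial in finitely many variables listed in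
decreasing order -/
theorem rep_poly {F L : Type*} [Field F] [Field L] (j : F →+* L) (p : MvPolynomial T F)
    (hp : p ≠ 0) : ∃ (k : ℕ) (t : Fin k → T), StrictAnti t ∧ ∃ p' : MvPolynomial (Fin k) L,
      p' ≠ 0 ∧ ∀ x : T → L, MvPolynomial.eval₂Hom j x p = MvPolynomial.eval (fun a => x (t a)) p' := by
  obtain ⟨s, q, rfl⟩ := MvPolynomial.exists_finset_rename p
  have hq : q ≠ 0 := by
    rintro rfl
    exact hp (map_zero _)
  let iso := s.orderIsoOfFin rfl
  let e : {x // x ∈ s} ≃ Fin s.card := iso.symm.toEquiv.trans Fin.revPerm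
  refine ⟨s.card, fun a => (iso (Fin.rev a)).1, ?_, MvPolynomial.map j (MvPolynomial.rename e q),
    ?_, ?_⟩
  · intro a b hab
    have h1 : Fin.rev b < Fin.rev a := Fin.rev_lt_rev.2 hab
    exact iso.strictMono h1
  · intro h
    have h1 : MvPolynomial.rename e q = 0 :=
      MvPolynomial.map_injective j j.injective (by rw [h, map_zero])
    exact hq (MvPolynomial.rename_injective e e.injective (by rw [h1, map_zero]))
  · intro x
    rw [MvPolynomial.eval_map, MvPolynomial.eval₂_rename, MvPolynomial.coe_eval₂Hom,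
      MvPolynomial.eval₂_rename]
    congr 1
    funext y
    show x y = x (iso (Fin.rev (Fin.rev (iso.symm y)))).1
    rw [Fin.rev_rev, OrderIso.apply_symm_apply]

variable {L : Type*} [Field L] [TopologicalSpace L] [IsTopologicalDivisionRing L] [T2Space L]

theorem XS_sub (u : ℕ → L) {s t : T} (hst : s ≤ t) (ω : ℝ) (M : ℕ) :
    XS u t (ω, M) - XS u s (ω, M) =
      ∑ n ∈ Finset.range M, if (s : ℝ) ≤ clk n ω ∧ clk n ω < t then u n else 0 := by
  unfold XS
  rw [← Finset.sum_sub_distrib]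
  refine Finset.sum_congr rfl fun n _ => ?_
  have hst' : (s : ℝ) ≤ t := hst
  by_cases h1 : clk n ω < s
  · have h2 : clk n ω < t := h1.trans_le hst'
    have h3 : ¬ ((s : ℝ) ≤ clk n ω ∧ clk n ω < t) := fun h => absurd h.1 (not_le.2 h1)
    simp only [if_pos h1, if_pos h2, if_neg h3, sub_self]
  · by_cases h2 : clk n ω < t
    · have h3 : ((s : ℝ) ≤ clk n ω ∧ clk n ω < t) := ⟨not_lt.1 h1, h2⟩
      simp only [if_neg h1, if_pos h2, if_pos h3, sub_zero]
    · have h3 : ¬ ((s : ℝ) ≤ clk n ω ∧ clk n ω < t) := fun h => h2 h.2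
      simp only [if_neg h1, if_neg h2, if_neg h3, sub_zero]

theorem XS_sub_mem {U : ℕ → Set L} (hUU : ∀ n, ∀ x ∈ U (n + 1), ∀ y ∈ U (n + 1), x + y ∈ U n)
    (h0 : ∀ n, (0 : L) ∈ U n) {u : ℕ → L} (hu : ∀ n, u n ∈ U n) {s t : T} (hst : s ≤ t) (ω : ℝ)
    (M n0 : ℕ) (h : ∀ n ≤ n0, ¬ ((s : ℝ) ≤ clk n ω ∧ clk n ω < t)) :
    XS u t (ω, M) - XS u s (ω, M) ∈ U n0 := by
  rw [XS_sub u hst]
  set a : ℕ → L := fun n => if (s : ℝ) ≤ clk n ω ∧ clk n ω < t then u n else 0 with ha
  have ha0 : ∀ n ≤ n0, a n = 0 := fun n hn => by simp only [ha]; rw [if_neg (h n hn)]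
  have hau : ∀ n, 0 ≤ n → a n ∈ U n := by
    intro n _
    simp only [ha]
    split_ifs
    · exact hu n
    · exact h0 n
  by_cases hM : M ≤ n0 + 1
  · have : ∑ n ∈ Finset.range M, a n = 0 := by
      refine Finset.sum_eq_zero fun n hn => ha0 n ?_
      have := Finset.mem_range.1 hn
      omega
    rw [this]
    exact h0 n0
  · obtain ⟨d, rfl⟩ := Nat.exists_eq_add_of_le (show n0 + 1 ≤ M by omega)
    rw [Finset.sum_range_add]
    have h1 : ∑ n ∈ Finset.range (n0 + 1), a n = 0 := by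
      refine Finset.sum_eq_zero fun n hn => ha0 n ?_
      have := Finset.mem_range.1 hn
      omega
    rw [h1, zero_add]
    exact telescoping hUU h0 hau d n0 (Nat.zero_le _)

/-- bound for the event that one of the first clocks rings between two times -/
theorem clk_union (n0 : ℕ) {s t : ℝ} (hst : s ≤ t) :
    volume ({ω | ∃ n ≤ n0, s ≤ clk n ω ∧ clk n ω < t} ∩ Ico (0:ℝ) 1) ≤
      ENNReal.ofReal ((n0 + 1) * (2 * (t - s))) := by
  have hsub : {ω | ∃ n ≤ n0, s ≤ clk n ω ∧ clk n ω < t} ∩ Ico (0:ℝ) 1 ⊆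
      ⋃ n ∈ Finset.range (n0 + 1), ({ω | s ≤ clk n ω ∧ clk n ω < t} ∩ Ico (0:ℝ) 1) := by
    rintro ω ⟨⟨n, hn, h1⟩, h2⟩
    refine mem_iUnion₂.2 ⟨n, ?_, h1, h2⟩
    simp; omega
  calc _ ≤ volume (⋃ n ∈ Finset.range (n0 + 1), ({ω | s ≤ clk n ω ∧ clk n ω < t} ∩ Ico (0:ℝ) 1)) :=
        measure_mono hsub
    _ ≤ ∑ n ∈ Finset.range (n0 + 1), volume ({ω | s ≤ clk n ω ∧ clk n ω < t} ∩ Ico (0:ℝ) 1) :=
        measure_biUnion_finset_le _ _
    _ ≤ ∑ n ∈ Finset.range (n0 + 1), ENNReal.ofReal (2 * (t - s)) :=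
        Finset.sum_le_sum fun n _ => clk_vol n hst
    _ = ENNReal.ofReal ((n0 + 1) * (2 * (t - s))) := by
        have e1 : ENNReal.ofReal (((n0 : ℝ) + 1) * (2 * (t - s))) =
            ENNReal.ofReal ((n0 : ℝ) + 1) * ENNReal.ofReal (2 * (t - s)) :=
          ENNReal.ofReal_mul (by positivity)
        rw [Finset.sum_const, Finset.card_range, nsmul_eq_mul, e1]
        congr 1
        rw [← Nat.cast_succ, ENNReal.ofReal_natCast]

theorem small_event (n0 : ℕ) (t : T) {ε : ℝ≥0∞} (hε : 0 < ε) :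
    ∀ᶠ s : T in 𝓝 t, ENNReal.ofReal ((n0 + 1) * (2 * |(s : ℝ) - t|)) < ε := by
  have hc : Continuous fun s : T => ENNReal.ofReal ((n0 + 1) * (2 * |(s : ℝ) - t|)) := by
    refine ENNReal.continuous_ofReal.comp ?_
    fun_prop
  have h1 := hc.tendsto t
  simp only [sub_self, abs_zero, mul_zero, ENNReal.ofReal_zero] at h1
  exact h1.eventually_lt_const hε

open MvPolynomial in
theorem countable_nice {F : Type*} [Field F] [Countable L] [(𝓝[≠] (0 : L)).NeBot]
    [FirstCountableTopology L] (j : F →+* L) :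
    ∃ 𝓖 : Filter (BigK F), Nice (comap j (𝓝 (0 : L))) 𝓖 := by
  obtain ⟨U, hU, hUU0⟩ := IsTopologicalAddGroup.exists_antitone_basis_nhds_zero L
  have hUU : ∀ n, ∀ x ∈ U (n + 1), ∀ y ∈ U (n + 1), x + y ∈ U n := by
    intro n x hx y hy
    exact hUU0 n (Set.add_mem_add hx hy)
  have h0 : ∀ n, (0 : L) ∈ U n := fun n => mem_of_mem_nhds (hU.mem n)
  have hcount : Countable (Σ k, MvPolynomial (Fin k) L) := by
    have : ∀ k, Countable (MvPolynomial (Fin k) L) := by
      intro k
      rw [← Cardinal.mk_le_aleph0_iff]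
      refine (MvPolynomial.cardinalMk_le_max_lift (σ := Fin k) (R := L)).trans ?_
      simp
    infer_instance
  obtain ⟨P, hP⟩ := exists_surjective_nat (Σ k, MvPolynomial (Fin k) L)
  obtain ⟨u, S, hC⟩ := exists_constr U (fun n => hU.mem n) P
  have hu : ∀ n, u n ∈ U n := fun n => (hC.good n).1
  refine ⟨_, nice_of_data (FF.of_nhds (L := L)) limSub j (XS u) ?_ ?_ ?_ ?_⟩
  · intro t
    refine tight_of_cauchy hU hUU (XS u t) 0 ?_ ?_
    · intro N _ ω
      rw [XS_succ, add_sub_cancel_left]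
      split_ifs
      · exact hu N
      · exact h0 N
    · intro N
      refine (S N).finite_toSet.subset ?_
      rintro _ ⟨ω, rfl⟩
      exact XS_mem hC t ω N
  · intro p hp
    obtain ⟨k, t, ht, p', hp', he⟩ := rep_poly j p hp
    obtain ⟨N0, hN0⟩ := nonvanish hP hC k p' hp' t ht
    rw [Sub.eventually_ae]
    refine limSub_zero N0 ?_
    intro M hM ω h
    apply h
    show MvPolynomial.eval₂Hom j (fun t => XS u t (ω, M)) p ≠ 0
    rw [he]
    exact hN0 M hM ω
  · intro p hp
    obtain ⟨k, t, ht, p', hp', he⟩ := rep_poly j p hp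
    obtain ⟨N0, hN0⟩ := nonvanish hP hC k p' hp' t ht
    obtain ⟨i, hi⟩ := hP ⟨k, p'⟩
    have hev : ∀ ω N, evX j (XS u) (ω, N) p = eval (zvec u t ω N) p' := fun ω N => he _
    refine tight_of_cauchy hU hUU _ (max N0 i) ?_ ?_
    · intro N hN ω
      simp only [hev]
      exact (persist1 hC ⟨k, p'⟩ i hi t ω N ((le_max_right _ _).trans hN)
        (hN0 N ((le_max_left _ _).trans hN) ω)).2
    · intro N
      have hfin : ((Fintype.piFinset (fun _ : Fin k => S N) : Finset (Fin k → L)) : Set (Fin k → L)).Finite :=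
        Finset.finite_toSet _
      refine (hfin.image fun z => (eval z p')⁻¹).subset ?_
      rintro _ ⟨ω, rfl⟩
      refine ⟨zvec u t ω N, ?_, ?_⟩
      · simp only [Finset.mem_coe, Fintype.mem_piFinset]
        intro a
        exact XS_mem hC (t a) ω N
      · simp only [hev]
  · intro t W hW ε hε
    have hW2 : W ∩ (fun x : L => -x) ⁻¹' W ∈ 𝓝 (0 : L) :=
      inter_mem hW ((FF.of_nhds (L := L)).neg hW)
    obtain ⟨n0, -, hn0⟩ := hU.1.mem_iff.1 hW2
    filter_upwards [small_event n0 t hε] with s hs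
    refine lt_of_le_of_lt (limSub_le fun M => ?_) hs
    rcases le_total s t with hst | hst
    · have hst' : (s : ℝ) ≤ t := hst
      have e : |(s : ℝ) - t| = t - s := by rw [abs_sub_comm, abs_of_nonneg]; linarith
      rw [e]
      refine le_trans (measure_mono ?_) (clk_union n0 hst')
      rintro ω ⟨h1, h2⟩
      refine ⟨?_, h2⟩
      by_contra hcon
      simp only [mem_ofPred_eq, not_exists, not_and] at hcon
      apply h1
      have h3 := XS_sub_mem hUU h0 hu hst ω M n0 (fun n hn hh => hcon n hn hh.1 hh.2)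
      have h4 := (hn0 h3).2
      have h5 : -(XS u t (ω, M) - XS u s (ω, M)) ∈ W := h4
      rwa [neg_sub] at h5
    · have hst' : (t : ℝ) ≤ s := hst
      have e : |(s : ℝ) - t| = s - t := by rw [abs_of_nonneg]; linarith
      rw [e]
      refine le_trans (measure_mono ?_) (clk_union n0 hst')
      rintro ω ⟨h1, h2⟩
      refine ⟨?_, h2⟩
      by_contra hcon
      simp only [mem_ofPred_eq, not_exists, not_and] at hcon
      apply h1
      have h3 := XS_sub_mem hUU h0 hu hst ω M n0 (fun n hn hh => hcon n hn hh.1 hh.2)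
      exact (hn0 h3).1

end countable3


section coarse
variable {L : Type*} [Field L] [t₀ : TopologicalSpace L] [IsTopologicalDivisionRing L] [T2Space L]

theorem coarse_topology [Countable L] {W : Set L} (hW : W ∈ 𝓝 (0 : L)) :
    ∃ τ : TopologicalSpace L, @IsTopologicalDivisionRing L _ τ ∧ @T2Space L τ ∧
      @FirstCountableTopology L τ ∧ @nhds L t₀ 0 ≤ @nhds L τ 0 ∧ W ∈ @nhds L τ 0 := by
  have hFF : FF (𝓝 (0 : L)) := FF.of_nhds
  obtain ⟨a, ha⟩ := exists_surjective_nat L
  have step : ∀ (n : ℕ) (V : {V : Set L // V ∈ 𝓝 (0 : L)}), ∃ V' : {V : Set L // V ∈ 𝓝 (0 : L)},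
      V'.1 ⊆ V.1 ∧ (∀ x ∈ V'.1, ∀ y ∈ V'.1, x + y ∈ V.1) ∧ (∀ x ∈ V'.1, -x ∈ V.1) ∧
      (∀ x ∈ V'.1, ∀ y ∈ V'.1, x * y ∈ V.1) ∧ (∀ i ≤ n, ∀ x ∈ V'.1, a i * x ∈ V.1) ∧
      (∀ x ∈ V'.1, (1 + x)⁻¹ - 1 ∈ V.1) ∧ (∀ i ≤ n, a i ≠ 0 → a i ∉ V'.1) := by
    rintro n ⟨V, hV⟩
    obtain ⟨A, hA, B, hB, hAB⟩ := mem_prod_iff.1 (hFF.add hV)
    obtain ⟨C, hC, D, hD, hCD⟩ := mem_prod_iff.1 (hFF.mul hV)
    have hN := hFF.neg hV
    have hI := hFF.inv hV
    have hM : (⋂ i ∈ Finset.range (n + 1), {x : L | a i * x ∈ V}) ∈ 𝓝 (0 : L) := by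
      rw [Filter.biInter_finset_mem]
      intro i _
      exact hFF.smul (a i) hV
    have hS : (⋂ i ∈ Finset.range (n + 1), {x : L | a i ≠ 0 → x ≠ a i}) ∈ 𝓝 (0 : L) := by
      rw [Filter.biInter_finset_mem]
      intro i _
      by_cases h : a i = 0
      · have : {x : L | a i ≠ 0 → x ≠ a i} = univ := by
          ext x; simp [h]
        rw [this]; exact univ_mem
      · refine mem_of_superset (hFF.sep (a i) h) ?_
        intro x hx _
        exact hx
    refine ⟨⟨V ∩ (A ∩ B) ∩ (C ∩ D) ∩ ((fun x : L => -x) ⁻¹' V) ∩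
      ((fun x : L => (1 + x)⁻¹ - 1) ⁻¹' V) ∩
      (⋂ i ∈ Finset.range (n + 1), {x : L | a i * x ∈ V}) ∩
      (⋂ i ∈ Finset.range (n + 1), {x : L | a i ≠ 0 → x ≠ a i}), ?_⟩, ?_, ?_, ?_, ?_, ?_, ?_, ?_⟩
    · exact inter_mem (inter_mem (inter_mem (inter_mem (inter_mem (inter_mem hV (inter_mem hA hB))
        (inter_mem hC hD)) hN) hI) hM) hS
    · rintro x ⟨⟨⟨⟨⟨⟨h1, h2⟩, h3⟩, h4⟩, h5⟩, h6⟩, h7⟩
      exact h1
    · rintro x ⟨⟨⟨⟨⟨⟨h1, h2⟩, h3⟩, h4⟩, h5⟩, h6⟩, h7⟩ y ⟨⟨⟨⟨⟨⟨k1, k2⟩, k3⟩, k4⟩, k5⟩, k6⟩, k7⟩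
      exact hAB (show (x, y) ∈ A ×ˢ B from ⟨h2.1, k2.2⟩)
    · rintro x ⟨⟨⟨⟨⟨⟨h1, h2⟩, h3⟩, h4⟩, h5⟩, h6⟩, h7⟩
      exact h4
    · rintro x ⟨⟨⟨⟨⟨⟨h1, h2⟩, h3⟩, h4⟩, h5⟩, h6⟩, h7⟩ y ⟨⟨⟨⟨⟨⟨k1, k2⟩, k3⟩, k4⟩, k5⟩, k6⟩, k7⟩
      exact hCD (show (x, y) ∈ C ×ˢ D from ⟨h3.1, k3.2⟩)
    · rintro i hi x ⟨⟨⟨⟨⟨⟨h1, h2⟩, h3⟩, h4⟩, h5⟩, h6⟩, h7⟩
      have := mem_iInter₂.1 h6 i (by simp; omega)
      exact this
    · rintro x ⟨⟨⟨⟨⟨⟨h1, h2⟩, h3⟩, h4⟩, h5⟩, h6⟩, h7⟩
      exact h5
    · rintro i hi hai ⟨⟨⟨⟨⟨⟨h1, h2⟩, h3⟩, h4⟩, h5⟩, h6⟩, h7⟩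
      have := mem_iInter₂.1 h7 i (by simp; omega)
      exact this hai rfl
  choose nxt hn1 hn2 hn3 hn4 hn5 hn6 hn7 using step
  let V : ℕ → {V : Set L // V ∈ 𝓝 (0 : L)} := fun n => Nat.rec ⟨W, hW⟩ (fun n V => nxt n V) n
  have hVs : ∀ n, V (n + 1) = nxt n (V n) := fun n => rfl
  have hanti : Antitone fun n => (V n).1 := by
    refine antitone_nat_of_succ_le fun n => ?_
    rw [hVs]
    exact hn1 n (V n)
  let f : Filter L := {
    sets := {s | ∃ n, (V n).1 ⊆ s}
    univ_sets := ⟨0, subset_univ _⟩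
    sets_of_superset := by
      rintro s t ⟨n, hn⟩ hst
      exact ⟨n, hn.trans hst⟩
    inter_sets := by
      rintro s t ⟨n, hn⟩ ⟨m, hm⟩
      exact ⟨max n m, subset_inter ((hanti (le_max_left n m)).trans hn)
        ((hanti (le_max_right n m)).trans hm)⟩ }
  have hmem : ∀ s, s ∈ f ↔ ∃ n, (V n).1 ⊆ s := fun s => Iff.rfl
  have hVf : ∀ n, (V n).1 ∈ f := fun n => ⟨n, Subset.rfl⟩
  have hff : FF f := by
    refine ⟨?_, ?_, ?_, ?_, ?_, ?_, ?_⟩
    · rintro s ⟨n, hn⟩
      rw [mem_pure]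
      exact hn (mem_of_mem_nhds (V n).2)
    · rintro s ⟨n, hn⟩
      rw [mem_map]
      refine mem_of_superset (prod_mem_prod (hVf (n + 1)) (hVf (n + 1))) ?_
      rintro ⟨x, y⟩ ⟨hx, hy⟩
      exact hn (hn2 n (V n) x hx y hy)
    · rintro s ⟨n, hn⟩
      rw [mem_map]
      refine mem_of_superset (hVf (n + 1)) ?_
      intro x hx
      exact hn (hn3 n (V n) x hx)
    · rintro s ⟨n, hn⟩
      rw [mem_map]
      refine mem_of_superset (prod_mem_prod (hVf (n + 1)) (hVf (n + 1))) ?_
      rintro ⟨x, y⟩ ⟨hx, hy⟩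
      exact hn (hn4 n (V n) x hx y hy)
    · rintro b s ⟨n, hn⟩
      obtain ⟨i, rfl⟩ := ha b
      rw [mem_map]
      refine mem_of_superset (hVf (max n i + 1)) ?_
      intro x hx
      have h1 := hn5 (max n i) (V (max n i)) i (le_max_right n i) x hx
      exact hn (hanti (le_max_left n i) h1)
    · rintro s ⟨n, hn⟩
      rw [mem_map]
      refine mem_of_superset (hVf (n + 1)) ?_
      intro x hx
      exact hn (hn6 n (V n) x hx)
    · intro b hb
      obtain ⟨i, rfl⟩ := ha b
      refine ⟨i + 1, ?_⟩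
      intro x hx hxb
      rw [mem_singleton_iff] at hxb
      subst hxb
      exact hn7 i (V i) i le_rfl hb hx
  obtain ⟨τ, h1, h2, h3⟩ := hff.exists_topology
  refine ⟨τ, h1, h2, ?_, ?_, ?_⟩
  · have hcg : f.IsCountablyGenerated := by
      have hb : f.HasBasis (fun _ : ℕ => True) (fun n => (V n).1) :=
        ⟨fun s => by simp [hmem]⟩
      exact hb.isCountablyGenerated
    refine @FirstCountableTopology.mk L τ ?_
    intro x
    let _ := τ
    have := h1
    have h5 : 𝓝 x = map (fun y => x + y) (𝓝 0) := by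
      have := map_add_left_nhds_zero x
      exact this.symm
    rw [h5]
    have h6 : (𝓝 (0 : L)) = f := h3
    rw [h6]
    infer_instance
  · rw [h3]
    rintro s ⟨n, hn⟩
    exact mem_of_superset (V n).2 hn
  · rw [h3]
    exact hVf 0

theorem countable_nice' {F : Type*} [Field F] [Countable L] [hne : (𝓝[≠] (0 : L)).NeBot]
    (j : F →+* L) {W : Set L} (hW : W ∈ 𝓝 (0 : L)) :
    ∃ (𝓗 : Filter F) (𝓖 : Filter (BigK F)), Nice 𝓗 𝓖 ∧ comap j (𝓝 (0 : L)) ≤ 𝓗 ∧
      j ⁻¹' W ∈ 𝓗 := by
  obtain ⟨τ, h1, h2, h3, h4, h5⟩ := coarse_topology hW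
  have hne' : (@nhds L τ 0 ⊓ 𝓟 {0}ᶜ).NeBot := by
    refine NeBot.mono hne ?_
    exact inf_le_inf h4 le_rfl
  have key : ∃ 𝓖 : Filter (BigK F), Nice (comap j (@nhds L τ 0)) 𝓖 := by
    let _ := τ
    have : (𝓝[≠] (0 : L)).NeBot := hne'
    exact countable_nice j
  obtain ⟨𝓖, h𝓖⟩ := key
  exact ⟨_, 𝓖, h𝓖, comap_mono h4, preimage_mem_comap h5⟩

end coarse


section cantor

/-- fair coin -/
noncomputable def coin : Measure Bool :=
  (2:ℝ≥0∞)⁻¹ • Measure.dirac true + (2:ℝ≥0∞)⁻¹ • Measure.dirac false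

instance : IsProbabilityMeasure coin := ⟨by simp [coin, ENNReal.inv_two_add_inv_two]⟩

theorem coin_not : coin.map (fun b => !b) = coin := by
  have hm : Measurable (fun b : Bool => !b) := measurable_of_countable _
  unfold coin
  rw [Measure.map_add _ _ hm]
  simp only [Measure.map_smul, Measure.map_dirac' hm, Bool.not_true, Bool.not_false]
  rw [add_comm]

/-- space of coin tosses -/
abbrev Coins : Type := ℕ × Bool → Bool

/-- coin tossing measure -/
noncomputable def cm : Measure Coins := Measure.infinitePi (fun _ => coin)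

instance : IsProbabilityMeasure cm := by unfold cm; infer_instance

/-- flipping one coin -/
def flipAt (n : ℕ) (η : Coins) : Coins := fun i => if i = (n, true) then !(η i) else η i

theorem flipAt_mp (n : ℕ) : MeasurePreserving (flipAt n) cm cm := by
  have hf : ∀ i : ℕ × Bool, Measurable
      (fun b : Bool => if i = (n, true) then !b else b) := fun i => measurable_of_countable _
  refine ⟨?_, ?_⟩
  · refine measurable_pi_iff.2 fun i => ?_
    exact (hf i).comp (measurable_pi_apply i)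
  · have h1 := Measure.infinitePi_map_pi (μ := fun _ : ℕ × Bool => coin)
      (f := fun i b => if i = (n, true) then !b else b) hf
    have h2 : (fun i : ℕ × Bool => coin.map (fun b : Bool => if i = (n, true) then !b else b)) =
        fun _ => coin := by
      funext i
      by_cases hi : i = (n, true)
      · simp only [if_pos hi]; exact coin_not
      · simp only [if_neg hi]; exact Measure.map_id
    have h3 : (Measure.infinitePi fun i : ℕ × Bool =>
        coin.map (fun b : Bool => if i = (n, true) then !b else b)) = Measure.infinitePi fun _ => coin := by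
      congr 1
    rw [h3] at h1
    exact h1

/-- random points of the Cantor set -/
noncomputable def bits (t : T) (ω : ℝ) (η : Coins) : ℕ → Bool :=
  fun n => if clk n ω < t then η (n, true) else η (n, false)

theorem bits_continuous (t : T) (ω : ℝ) : Continuous (bits t ω) := by
  refine continuous_pi fun n => ?_
  unfold bits
  by_cases h : clk n ω < t
  · simp only [if_pos h]; fun_prop
  · simp only [if_neg h]; fun_prop

theorem bits_measurable (t : T) : Measurable fun x : ℝ × Coins => bits t x.1 x.2 := by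
  refine measurable_pi_iff.2 fun n => ?_
  unfold bits
  refine Measurable.ite ?_ ?_ ?_
  · exact measurableSet_lt ((clk_measurable n).comp measurable_fst) measurable_const
  · exact (measurable_pi_apply _).comp measurable_snd
  · exact (measurable_pi_apply _).comp measurable_snd

theorem bits_flip (t : T) (ω : ℝ) (η : Coins) (n m : ℕ) :
    bits t ω (flipAt n η) m = if m = n ∧ clk n ω < t then !(bits t ω η m) else bits t ω η m := by
  unfold bits flipAt
  by_cases hmn : m = n
  · subst hmn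
    by_cases h : clk m ω < t
    · simp [h]
    · simp [h]
  · simp [hmn]

variable {L : Type*} [Field L] [TopologicalSpace L] [IsTopologicalDivisionRing L] [T2Space L]

open MvPolynomial in
theorem cantor_nonvanish {e : (ℕ → Bool) → L} (he : Continuous e) (hei : Function.Injective e)
    (ω : ℝ) : ∀ (k : ℕ) (p : MvPolynomial (Fin k) L), p ≠ 0 → ∀ t : Fin k → T, StrictAnti t →
      cm {η | eval (fun a => e (bits (t a) ω η)) p = 0} = 0 := by
  intro k
  induction k with
  | zero =>
    intro p hp t _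
    have : {η : Coins | eval (fun a => e (bits (t a) ω η)) p = 0} = ∅ := by
      ext η
      simp only [mem_ofPred_eq, mem_empty_iff_false, iff_false]
      rw [MvPolynomial.eq_C_of_isEmpty p] at hp ⊢
      rw [eval_C]
      intro h
      apply hp
      rw [h, C_0]
    rw [this, measure_empty]
  | succ k ih =>
    intro p hp t ht
    set Q := finSuccEquiv L k p with hQ
    have hQ0 : Q ≠ 0 := by
      rw [hQ]
      exact (map_ne_zero_iff _ (finSuccEquiv L k).injective).2 hp
    have hc : Q.leadingCoeff ≠ 0 := Polynomial.leadingCoeff_ne_zero.2 hQ0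
    obtain ⟨lo, hlo0, hlo1, hlo2⟩ : ∃ lo : ℝ, 0 ≤ lo ∧ lo < t 0 ∧ ∀ a : Fin k, (t a.succ : ℝ) ≤ lo := by
      cases k with
      | zero => exact ⟨0, le_rfl, (t 0).2.1, fun a => a.elim0⟩
      | succ k =>
        refine ⟨t 1, (t 1).2.1.le, ?_, ?_⟩
        · exact ht (by simp : (0 : Fin (k + 2)) < 1)
        · intro a
          have h1 : (1 : Fin (k + 2)) ≤ a.succ := by
            rw [Fin.le_def]; simp
          exact ht.antitone h1
    have hcont : ∀ (m : ℕ) (s : Fin m → T) (q : MvPolynomial (Fin m) L),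
        Continuous fun η : Coins => eval (fun a => e (bits (s a) ω η)) q := by
      intro m s q
      have h1 : Continuous fun x : Fin m → L => eval x q := MvPolynomial.continuous_eval q
      exact h1.comp (continuous_pi fun a => he.comp (bits_continuous (s a) ω))
    set E1 : Set Coins := {η | eval (fun a => e (bits (t a.succ) ω η)) Q.leadingCoeff = 0} with hE1
    have hE1n : cm E1 = 0 := ih Q.leadingCoeff hc (fun a => t a.succ)
      (fun a b hab => ht (Fin.succ_lt_succ_iff.2 hab))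
    set E0 : Set Coins := {η | eval (fun a => e (bits (t a) ω η)) p = 0} with hE0
    set E : Set Coins := E0 \ E1 with hE
    have hEm : MeasurableSet E := by
      refine MeasurableSet.diff ?_ ?_
      · exact (isClosed_eq (hcont _ t p) continuous_const).measurableSet
      · exact (isClosed_eq (hcont _ (fun a => t a.succ) Q.leadingCoeff) continuous_const).measurableSet
    set I : Set ℕ := {n | lo ≤ clk n ω ∧ clk n ω < t 0} with hI
    have hIinf : I.Infinite := by
      rw [Set.infinite_iff_exists_gt]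
      intro m
      obtain ⟨M, hM⟩ := clk_hit (m + 1) hlo0 hlo1 (t 0).2.2.le
      obtain ⟨n, h1, h2, h3, h4⟩ := hM ω
      exact ⟨n, ⟨h3, h4⟩, by omega⟩
    -- the tail does not change under flips
    have htail : ∀ n ∈ I, ∀ η (a : Fin k), bits (t a.succ) ω (flipAt n η) = bits (t a.succ) ω η := by
      intro n hn η a
      funext m
      rw [bits_flip, if_neg]
      rintro ⟨-, h2⟩
      have h3 := hlo2 a
      have h4 := hn.1
      linarith
    have hhead : ∀ n ∈ I, ∀ n' ∈ I, ∀ η, bits (t 0) ω (flipAt n η) = bits (t 0) ω (flipAt n' η) →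
        n = n' := by
      intro n hn n' hn' η h
      by_contra hne
      have h1 := congrFun h n
      rw [bits_flip, bits_flip, if_pos ⟨rfl, hn.2⟩, if_neg (fun h => hne h.1)] at h1
      simp at h1
    have hcard : ∀ I' : Finset ℕ, (∀ n ∈ I', n ∈ I) → ∀ η : Coins,
        ∑ n ∈ I', (flipAt n ⁻¹' E).indicator (fun _ => (1 : ℝ≥0∞)) η ≤ Q.natDegree := by
      classical
      intro I' hI' η
      have h1 : ∑ n ∈ I', (flipAt n ⁻¹' E).indicator (fun _ => (1 : ℝ≥0∞)) η =
          ((I'.filter fun n => flipAt n η ∈ E).card : ℝ≥0∞) := by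
        rw [Finset.card_filter, Nat.cast_sum]
        refine Finset.sum_congr rfl fun n _ => ?_
        by_cases h : flipAt n η ∈ E
        · rw [Set.indicator_of_mem (show η ∈ flipAt n ⁻¹' E from h), if_pos h]; simp
        · rw [Set.indicator_of_notMem (show η ∉ flipAt n ⁻¹' E from h), if_neg h]; simp
      rw [h1]
      have h2 : (I'.filter fun n => flipAt n η ∈ E).card ≤ Q.natDegree := by
        set J := I'.filter fun n => flipAt n η ∈ E with hJ
        rcases J.eq_empty_or_nonempty with h | ⟨n0, hn0⟩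
        · rw [h]; simp
        · have hn0' := Finset.mem_filter.1 hn0
          have hn0I := hI' n0 hn0'.1
          set R : Polynomial L := Polynomial.map (eval fun a => e (bits (t a.succ) ω η)) Q with hR
          have hR0 : R ≠ 0 := by
            intro h
            have h3 := congrArg (fun q => Polynomial.coeff q Q.natDegree) h
            simp only [hR, Polynomial.coeff_map, Polynomial.coeff_zero] at h3
            apply hn0'.2.2
            show eval (fun a => e (bits (t a.succ) ω (flipAt n0 η))) Q.leadingCoeff = 0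
            have h4 : (fun a => e (bits (t a.succ) ω (flipAt n0 η))) =
                fun a : Fin k => e (bits (t a.succ) ω η) := by
              funext a; rw [htail n0 hn0I η a]
            rw [h4]
            exact h3
          have hroot : ∀ n ∈ J, e (bits (t 0) ω (flipAt n η)) ∈ R.roots.toFinset := by
            intro n hn
            have hn' := Finset.mem_filter.1 hn
            rw [Multiset.mem_toFinset, Polynomial.mem_roots hR0, Polynomial.IsRoot.def, hR,
              ← eval_eq_eval_mv_eval']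
            have h5 : eval (fun a => e (bits (t a) ω (flipAt n η))) p = 0 := hn'.2.1
            have h6 : (fun a => e (bits (t a) ω (flipAt n η))) =
                (Fin.cons (e (bits (t 0) ω (flipAt n η))) (fun a => e (bits (t a.succ) ω η)) :
                  Fin (k + 1) → L) := by
              funext a
              refine Fin.cases ?_ ?_ a
              · simp
              · intro b
                simp only [Fin.cons_succ]
                rw [htail n (hI' n hn'.1) η b]
            rw [h6] at h5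
            exact h5
          have hinj : Set.InjOn (fun n => e (bits (t 0) ω (flipAt n η))) (J : Set ℕ) := by
            intro n hn n' hn' h
            have h7 := Finset.mem_filter.1 (Finset.mem_coe.1 hn)
            have h8 := Finset.mem_filter.1 (Finset.mem_coe.1 hn')
            exact hhead n (hI' n h7.1) n' (hI' n' h8.1) η (hei h)
          calc J.card ≤ R.roots.toFinset.card := Finset.card_le_card_of_injOn _ hroot hinj
            _ ≤ R.roots.card := Multiset.toFinset_card_le _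
            _ ≤ R.natDegree := Polynomial.card_roots' R
            _ ≤ Q.natDegree := Polynomial.natDegree_map_le
      exact_mod_cast h2
    have hsum : ∀ I' : Finset ℕ, (∀ n ∈ I', n ∈ I) → (I'.card : ℝ≥0∞) * cm E ≤ Q.natDegree := by
      intro I' hI'
      have hme : ∀ n, MeasurableSet (flipAt n ⁻¹' E) := fun n => (flipAt_mp n).measurable hEm
      have h1 : ∀ n, cm E = ∫⁻ η, (flipAt n ⁻¹' E).indicator (fun _ => (1 : ℝ≥0∞)) η ∂cm := by
        intro n
        rw [lintegral_indicator (hme n), setLIntegral_const, one_mul,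
          (flipAt_mp n).measure_preimage hEm.nullMeasurableSet]
      calc (I'.card : ℝ≥0∞) * cm E = ∑ n ∈ I', cm E := by
            rw [Finset.sum_const, nsmul_eq_mul]
        _ = ∑ n ∈ I', ∫⁻ η, (flipAt n ⁻¹' E).indicator (fun _ => (1 : ℝ≥0∞)) η ∂cm :=
            Finset.sum_congr rfl fun n _ => h1 n
        _ = ∫⁻ η, ∑ n ∈ I', (flipAt n ⁻¹' E).indicator (fun _ => (1 : ℝ≥0∞)) η ∂cm := by
            rw [lintegral_finsetSum]
            intro n _
            exact measurable_const.indicator (hme n)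
        _ ≤ ∫⁻ _, (Q.natDegree : ℝ≥0∞) ∂cm := lintegral_mono fun η => hcard I' hI' η
        _ = Q.natDegree := by rw [lintegral_const, measure_univ, mul_one]
    have hE_null : cm E = 0 := by
      by_contra hne
      have hpos : cm E ≠ 0 := hne
      have hfin : cm E ≠ ∞ := measure_ne_top _ _
      obtain ⟨N, hN⟩ := ENNReal.exists_nat_mul_gt hpos (ENNReal.natCast_ne_top Q.natDegree)
      obtain ⟨I', hI', hcardI⟩ := hIinf.exists_subset_card_eq N
      have h1 := hsum I' (fun n hn => hI' hn)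
      rw [hcardI] at h1
      exact absurd (lt_of_lt_of_le hN h1) (lt_irrefl _)
    refine le_antisymm ?_ zero_le
    calc cm E0 ≤ cm (E ∪ E1) := measure_mono (by
            intro η hη
            by_cases h : η ∈ E1
            · exact Or.inr h
            · exact Or.inl ⟨hη, h⟩)
      _ ≤ cm E + cm E1 := measure_union_le _ _
      _ = 0 := by rw [hE_null, hE1n, add_zero]

end cantor


section cantor2
variable {L : Type*} [Field L] [TopologicalSpace L] [IsTopologicalDivisionRing L] [T2Space L]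

/-- the probability on the space of clocks and coins -/
noncomputable def prob : Measure (ℝ × Coins) := (volume.restrict (Ico (0:ℝ) 1)).prod cm

instance : IsProbabilityMeasure (volume.restrict (Ico (0:ℝ) 1)) := ⟨by simp⟩

instance : IsProbabilityMeasure prob := by unfold prob; infer_instance

/-- a probability measure as a submeasure -/
noncomputable def probSub : Sub (ℝ × Coins) where
  m E := prob E
  mono := fun h => measure_mono h
  union := fun _ _ => measure_union_le _ _
  empty := measure_empty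
  univ := by rw [measure_univ]

/-- compact sets are bounded -/
theorem compact_bounded {C U : Set L} (hC : IsCompact C) (hU : U ∈ 𝓝 (0 : L)) :
    ∃ V ∈ 𝓝 (0 : L), ∀ c ∈ C, ∀ v ∈ V, c * v ∈ U := by
  have hmul : Continuous fun p : L × L => p.1 * p.2 := by fun_prop
  have hn : (fun p : L × L => p.1 * p.2) ⁻¹' (interior U) ∈ 𝓝ˢ (C ×ˢ ({0} : Set L)) := by
    rw [(isOpen_interior.preimage hmul).mem_nhdsSet]
    rintro ⟨c, v⟩ ⟨_, hv⟩
    rw [mem_singleton_iff] at hv
    subst hv
    show c * 0 ∈ interior U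
    rw [mul_zero]
    exact mem_interior_iff_mem_nhds.2 hU
  obtain ⟨A, B, hA, hB, hCA, h0B, hAB⟩ := generalized_tube_lemma hC isCompact_singleton
    (isOpen_interior.preimage hmul) (by
      rintro ⟨c, v⟩ ⟨_, hv⟩
      rw [mem_singleton_iff] at hv
      subst hv
      show c * 0 ∈ interior U
      rw [mul_zero]
      exact mem_interior_iff_mem_nhds.2 hU)
  refine ⟨B, hB.mem_nhds (h0B rfl), ?_⟩
  intro c hc v hv
  exact interior_subset (hAB (show (c, v) ∈ A ×ˢ B from ⟨hCA hc, hv⟩))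

/-- uniform continuity on the Cantor set -/
theorem cantor_unif {e : (ℕ → Bool) → L} (he : Continuous e) {U : Set L} (hU : U ∈ 𝓝 (0 : L)) :
    ∃ m : ℕ, ∀ a b : ℕ → Bool, (∀ n < m, a n = b n) → e a - e b ∈ U := by
  set K : Set ((ℕ → Bool) × (ℕ → Bool)) := {x | e x.1 - e x.2 ∉ interior U} with hK
  have hcl : IsClosed K := by
    have hc : Continuous fun x : (ℕ → Bool) × (ℕ → Bool) => e x.1 - e x.2 :=
      (he.comp continuous_fst).sub (he.comp continuous_snd)
    exact (isOpen_interior.preimage hc).isClosed_compl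
  set D : ℕ → Set ((ℕ → Bool) × (ℕ → Bool)) := fun m => {x | ∀ n < m, x.1 n = x.2 n} with hD
  have hDc : ∀ m, IsClosed (D m) := by
    intro m
    have : D m = ⋂ n ∈ Finset.range m, {x : (ℕ → Bool) × (ℕ → Bool) | x.1 n = x.2 n} := by
      ext x; simp [hD]
    rw [this]
    refine isClosed_biInter fun n _ => isClosed_eq ?_ ?_
    · exact (continuous_apply n).comp continuous_fst
    · exact (continuous_apply n).comp continuous_snd
  have hempty : K ∩ ⋂ m, D m = ∅ := by
    ext x
    simp only [mem_inter_iff, mem_iInter, mem_empty_iff_false, iff_false, not_and]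
    intro hx h
    apply hx
    have : x.1 = x.2 := by
      funext n
      exact h (n + 1) n (Nat.lt_succ_self n)
    show e x.1 - e x.2 ∈ interior U
    rw [this, sub_self]
    exact mem_interior_iff_mem_nhds.2 hU
  have hdir : Directed (· ⊇ ·) D := by
    intro i j
    refine ⟨max i j, ?_, ?_⟩
    · intro x hx n hn
      exact hx n (lt_of_lt_of_le hn (le_max_left i j))
    · intro x hx n hn
      exact hx n (lt_of_lt_of_le hn (le_max_right i j))
  obtain ⟨m, hm⟩ := hcl.isCompact.elim_directed_family_closed D hDc hempty hdir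
  refine ⟨m, fun a b hab => ?_⟩
  by_contra hcon
  have : ((a, b) : (ℕ → Bool) × (ℕ → Bool)) ∈ K ∩ D m :=
    ⟨fun h => hcon (interior_subset h), hab⟩
  rw [hm] at this
  exact this

open MvPolynomial in
theorem cantor_nice {F : Type*} [Field F] (j : F →+* L) {e : (ℕ → Bool) → L} (he : Continuous e)
    (hei : Function.Injective e) :
    ∃ 𝓖 : Filter (BigK F), Nice (comap j (𝓝 (0 : L))) 𝓖 := by
  set X : T → ℝ × Coins → L := fun t x => e (bits t x.1 x.2) with hX
  -- the random vector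
  have hvec : ∀ (k : ℕ) (t : Fin k → T), Measurable
      fun x : ℝ × Coins => (fun a => bits (t a) x.1 x.2 : Fin k → (ℕ → Bool)) := by
    intro k t
    exact measurable_pi_iff.2 fun a => bits_measurable (t a)
  have hcontp : ∀ (k : ℕ) (p : MvPolynomial (Fin k) L),
      Continuous fun y : Fin k → (ℕ → Bool) => eval (fun a => e (y a)) p := by
    intro k p
    have h1 : Continuous fun x : Fin k → L => eval x p := MvPolynomial.continuous_eval p
    exact h1.comp (continuous_pi fun a => he.comp (continuous_apply a))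
  have hnull : ∀ (k : ℕ) (p : MvPolynomial (Fin k) L), p ≠ 0 → ∀ t : Fin k → T, StrictAnti t →
      prob {x | eval (fun a => e (bits (t a) x.1 x.2)) p = 0} = 0 := by
    intro k p hp t ht
    have hm : MeasurableSet {x : ℝ × Coins | eval (fun a => e (bits (t a) x.1 x.2)) p = 0} := by
      have h1 : IsClosed {y : Fin k → (ℕ → Bool) | eval (fun a => e (y a)) p = 0} :=
        isClosed_eq (hcontp k p) continuous_const
      exact hvec k t h1.measurableSet
    unfold prob
    rw [Measure.measure_prod_null hm]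
    refine Filter.Eventually.of_forall fun ω => ?_
    exact cantor_nonvanish he hei ω k p hp t ht
  refine ⟨_, nice_of_data (FF.of_nhds (L := L)) probSub j X ?_ ?_ ?_ ?_⟩
  · intro t U hU ε hε
    obtain ⟨V, hV, hV'⟩ := compact_bounded (isCompact_range he) hU
    refine ⟨V, hV, ?_⟩
    have : {x : ℝ × Coins | ¬ ∀ v ∈ V, X t x * v ∈ U} = ∅ := by
      ext x
      simp only [mem_ofPred_eq, mem_empty_iff_false, iff_false, not_not]
      intro v hv
      exact hV' _ ⟨_, rfl⟩ v hv
    rw [this, probSub.empty]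
    exact hε
  · intro p hp
    obtain ⟨k, t, ht, p', hp', he'⟩ := rep_poly j p hp
    rw [Sub.eventually_ae]
    have : {x : ℝ × Coins | ¬ evX j X x p ≠ 0} =
        {x | eval (fun a => e (bits (t a) x.1 x.2)) p' = 0} := by
      ext x
      simp only [mem_ofPred_eq, ne_eq, not_not]
      have h1 : evX j X x p = eval (fun a => e (bits (t a) x.1 x.2)) p' := he' _
      rw [h1]
    rw [this]
    exact hnull k p' hp' t ht
  · intro p hp U hU ε hε
    obtain ⟨k, t, ht, p', hp', he'⟩ := rep_poly j p hp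
    have hev : ∀ x : ℝ × Coins, evX j X x p = eval (fun a => e (bits (t a) x.1 x.2)) p' :=
      fun x => he' _
    set A : ℝ × Coins → (Fin k → (ℕ → Bool)) := fun x a => bits (t a) x.1 x.2 with hA
    have hAm : Measurable A := hvec k t
    set O : Set (Fin k → (ℕ → Bool)) := {y | eval (fun a => e (y a)) p' = 0}ᶜ with hO
    have hOo : IsOpen O := (isClosed_eq (hcontp k p') continuous_const).isOpen_compl
    have hPM : IsProbabilityMeasure (prob.map A) := Measure.isProbabilityMeasure_map hAm.aemeasurable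
    obtain ⟨Q, hQO, hQc, hQ⟩ := hOo.measurableSet.exists_isClosed_sdiff_lt
      (measure_ne_top (prob.map A) O) hε.ne'
    have hcomp : IsCompact ((fun y : Fin k → (ℕ → Bool) => (eval (fun a => e (y a)) p')⁻¹) '' Q) := by
      refine hQc.isCompact.image_of_continuousOn ?_
      intro y hy
      have h1 : eval (fun a => e (y a)) p' ≠ 0 := hQO hy
      exact (((hcontp k p').continuousAt).inv₀ h1).continuousWithinAt
    obtain ⟨V, hV, hV'⟩ := compact_bounded hcomp hU
    refine ⟨V, hV, ?_⟩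
    have hsub : {x : ℝ × Coins | ¬ ∀ v ∈ V, (evX j X x p)⁻¹ * v ∈ U} ⊆ A ⁻¹' (O \ Q) ∪ A ⁻¹' Oᶜ := by
      intro x hx
      by_contra hcon
      rw [mem_union, not_or] at hcon
      obtain ⟨h1, h2⟩ := hcon
      have h3 : A x ∈ O := by
        by_contra h; exact h2 h
      have h4 : A x ∈ Q := by
        by_contra h; exact h1 ⟨h3, h⟩
      apply hx
      intro v hv
      rw [hev]
      exact hV' _ ⟨A x, h4, rfl⟩ v hv
    show prob _ < ε
    calc prob {x : ℝ × Coins | ¬ ∀ v ∈ V, (evX j X x p)⁻¹ * v ∈ U}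
        ≤ prob (A ⁻¹' (O \ Q) ∪ A ⁻¹' Oᶜ) := measure_mono hsub
      _ ≤ prob (A ⁻¹' (O \ Q)) + prob (A ⁻¹' Oᶜ) := measure_union_le _ _
      _ = prob.map A (O \ Q) + 0 := by
          congr 1
          · rw [Measure.map_apply hAm (hOo.measurableSet.diff hQc.measurableSet)]
          · rw [hO, compl_compl]
            exact hnull k p' hp' t ht
      _ < ε := by rw [add_zero]; exact hQ
  · intro t W hW ε hε
    obtain ⟨m, hm⟩ := cantor_unif he hW
    filter_upwards [small_event m t hε] with s hs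
    refine lt_of_le_of_lt ?_ hs
    have key : ∀ (a b : ℝ), a ≤ b → (∀ (x : ℝ × Coins), X s x - X t x ∉ W →
        ∃ n ≤ m, a ≤ clk n x.1 ∧ clk n x.1 < b) →
        probSub.m {x | X s x - X t x ∉ W} ≤ ENNReal.ofReal ((m + 1) * (2 * (b - a))) := by
      intro a b hab h
      have hsub : {x : ℝ × Coins | X s x - X t x ∉ W} ⊆
          {ω | ∃ n ≤ m, a ≤ clk n ω ∧ clk n ω < b} ×ˢ (univ : Set Coins) := by
        intro x hx
        exact ⟨h x hx, mem_univ _⟩
      have hmeas : MeasurableSet {ω | ∃ n ≤ m, a ≤ clk n ω ∧ clk n ω < b} := by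
        have : {ω | ∃ n ≤ m, a ≤ clk n ω ∧ clk n ω < b} =
            ⋃ n ∈ Finset.range (m + 1), {ω | a ≤ clk n ω ∧ clk n ω < b} := by
          ext ω
          simp only [mem_ofPred_eq, mem_iUnion, Finset.mem_range, Nat.lt_succ_iff, exists_prop]
        rw [this]
        refine Finset.measurableSet_biUnion _ fun n _ => ?_
        exact (measurableSet_le measurable_const (clk_measurable n)).inter
          (measurableSet_lt (clk_measurable n) measurable_const)
      calc prob {x : ℝ × Coins | X s x - X t x ∉ W}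
          ≤ prob ({ω | ∃ n ≤ m, a ≤ clk n ω ∧ clk n ω < b} ×ˢ (univ : Set Coins)) :=
            measure_mono hsub
        _ = volume ({ω | ∃ n ≤ m, a ≤ clk n ω ∧ clk n ω < b} ∩ Ico (0:ℝ) 1) := by
            unfold prob
            rw [Measure.prod_prod, measure_univ, mul_one, Measure.restrict_apply hmeas]
        _ ≤ _ := clk_union m hab
    rcases le_total s t with hst | hst
    · have hst' : (s : ℝ) ≤ t := hst
      have e1 : |(s : ℝ) - t| = t - s := by rw [abs_sub_comm, abs_of_nonneg]; linarith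
      rw [e1]
      refine key s t hst' ?_
      intro x hx
      by_contra hcon
      simp only [not_exists, not_and] at hcon
      apply hx
      refine hm _ _ fun n hn => ?_
      unfold bits
      by_cases h1 : clk n x.1 < s
      · rw [if_pos h1, if_pos (h1.trans_le hst')]
      · have h2 := hcon n hn.le (not_lt.1 h1)
        rw [if_neg h1, if_neg h2]
    · have hst' : (t : ℝ) ≤ s := hst
      have e1 : |(s : ℝ) - t| = s - t := by rw [abs_of_nonneg]; linarith
      rw [e1]
      refine key t s hst' ?_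
      intro x hx
      by_contra hcon
      simp only [not_exists, not_and] at hcon
      apply hx
      refine hm _ _ fun n hn => ?_
      unfold bits
      by_cases h1 : clk n x.1 < t
      · rw [if_pos h1, if_pos (h1.trans_le hst')]
      · have h2 := hcon n hn.le (not_lt.1 h1)
        rw [if_neg h1, if_neg h2]

end cantor2

section final
universe u
open scoped LaurentSeries WithZero

/-- The fields we can map to: countable non-discrete, or containing a Cantor set. -/
def GoodTarget (L : Type u) [TopologicalSpace L] : Prop :=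
  (Countable L ∧ ¬ DiscreteTopology L) ∨
    ∃ e : (ℕ → Bool) → L, Continuous e ∧ Function.Injective e

theorem neBot_of_not_discrete {L : Type*} [Field L] [TopologicalSpace L]
    [IsTopologicalDivisionRing L] (h : ¬ DiscreteTopology L) : (𝓝[≠] (0 : L)).NeBot := by
  by_contra hcon
  rw [not_neBot] at hcon
  apply h
  rw [discreteTopology_iff_isOpen_singleton_zero]
  exact isOpen_singleton_iff_punctured_nhds 0 |>.2 hcon

theorem embeds_general (F : Type u) [Field F] [TopologicalSpace F] [IsTopologicalDivisionRing F]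
    (h : ∀ W ∈ 𝓝 (0 : F), ∃ (L : Type u) (_ : Field L) (_ : TopologicalSpace L)
      (_ : IsTopologicalDivisionRing L) (_ : T2Space L) (j : F →+* L), GoodTarget L ∧
      Continuous j ∧ ∃ W' ∈ 𝓝 (0 : L), j ⁻¹' W' ⊆ W) : EmbedsPC F := by
  have key : ∀ W : {W : Set F // W ∈ 𝓝 (0 : F)}, ∃ (𝓗 : Filter F) (𝓖 : Filter (BigK F)),
      Nice 𝓗 𝓖 ∧ 𝓝 (0 : F) ≤ 𝓗 ∧ W.1 ∈ 𝓗 := by
    rintro ⟨W, hW⟩
    obtain ⟨L, i1, i2, i3, i4, j, hL, hj, W', hW', hWW⟩ := h W hW
    have hle : 𝓝 (0 : F) ≤ comap j (𝓝 (0 : L)) := by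
      have h1 := hj.tendsto 0
      rw [map_zero] at h1
      exact h1.le_comap
    rcases hL with ⟨hc, hd⟩ | ⟨e, he, hei⟩
    · have := neBot_of_not_discrete hd
      obtain ⟨𝓗, 𝓖, h1, h2, h3⟩ := countable_nice' j hW'
      exact ⟨𝓗, 𝓖, h1, hle.trans h2, mem_of_superset h3 hWW⟩
    · obtain ⟨𝓖, h1⟩ := cantor_nice j he hei
      exact ⟨_, 𝓖, h1, hle, mem_of_superset (preimage_mem_comap hW') hWW⟩
  choose 𝓗 𝓖 h1 h2 h3 using key
  have : Nonempty {W : Set F // W ∈ 𝓝 (0 : F)} := ⟨⟨univ, univ_mem⟩⟩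
  refine embeds_of_nice 𝓗 𝓖 h1 ?_
  apply le_antisymm
  · intro W hW
    exact (iInf_le 𝓗 ⟨W, hW⟩) (h3 ⟨W, hW⟩)
  · exact le_iInf fun W => h2 W

theorem embeds_good (F : Type u) [Field F] [TopologicalSpace F] [IsTopologicalDivisionRing F]
    [T2Space F] (h : GoodTarget F) : EmbedsPC F := by
  refine embeds_general F fun W hW => ?_
  exact ⟨F, inferInstance, inferInstance, inferInstance, inferInstance, RingHom.id F, h,
    continuous_id, W, hW, Subset.rfl⟩

/-- the Cantor set in the field of Laurent series -/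
noncomputable def lau (F : Type u) [Field F] (a : ℕ → Bool) : F⸨X⸩ :=
  HahnSeries.ofPowerSeries ℤ F (PowerSeries.mk fun n => if a n then 1 else 0)

theorem lau_coeff (F : Type u) [Field F] (a : ℕ → Bool) (n : ℕ) :
    (lau F a).coeff (n : ℤ) = if a n then 1 else 0 := by
  unfold lau
  rw [HahnSeries.ofPowerSeries_apply_coeff, PowerSeries.coeff_mk]

theorem lau_coeff_neg (F : Type u) [Field F] (a : ℕ → Bool) (n : ℤ) (hn : n < 0) :
    (lau F a).coeff n = 0 := by
  unfold lau
  rw [HahnSeries.ofPowerSeries_apply]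
  apply HahnSeries.embDomain_of_notMem_range
  rintro ⟨m, hm⟩
  simp at hm
  omega

theorem lau_injective (F : Type u) [Field F] : Function.Injective (lau F) := by
  intro a b h
  funext n
  have h1 := congrArg (fun f : F⸨X⸩ => f.coeff (n : ℤ)) h
  simp only [lau_coeff] at h1
  cases ha : a n <;> cases hb : b n <;> simp [ha, hb] at h1 ⊢

theorem lau_continuous (F : Type u) [Field F] : Continuous (lau F) := by
  rw [continuous_iff_continuousAt]
  intro a U hU
  rw [Valued.mem_nhds] at hU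
  obtain ⟨γ, hγ⟩ := hU
  set g : ℤᵐ⁰ := MonoidWithZeroHom.ValueGroup₀.embedding γ.1 with hg
  have hg0 : g ≠ 0 := by
    rw [hg]
    exact (map_ne_zero _).2 γ.ne_zero
  obtain ⟨m, hm⟩ : ∃ m : ℕ, WithZero.exp (-(m : ℤ)) < g := by
    refine ⟨(1 - WithZero.log g).toNat, ?_⟩
    have h1 := Int.self_le_toNat (1 - WithZero.log g)
    have h2 : WithZero.exp (-((1 - WithZero.log g).toNat : ℤ)) < WithZero.exp (WithZero.log g) := by
      rw [WithZero.exp_lt_exp]
      omega
    rwa [WithZero.exp_log hg0] at h2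
  have hcyl : {b : ℕ → Bool | ∀ n < m, b n = a n} ∈ 𝓝 a := by
    have : {b : ℕ → Bool | ∀ n < m, b n = a n} = ⋂ n ∈ Finset.range m, {b : ℕ → Bool | b n = a n} := by
      ext b; simp
    rw [this, Filter.biInter_finset_mem]
    intro n _
    have h1 : IsOpen {b : ℕ → Bool | b n = a n} := by
      have : {b : ℕ → Bool | b n = a n} = (fun b : ℕ → Bool => b n) ⁻¹' {a n} := rfl
      rw [this]
      exact (isOpen_discrete _).preimage (continuous_apply n)
    exact h1.mem_nhds rfl
  refine Filter.mem_map.2 (mem_of_superset hcyl ?_)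
  intro b hb
  apply hγ
  show Valued.v.restrict (lau F b - lau F a) < γ.1
  rw [Valuation.restrict_lt_iff_lt_embedding]
  refine lt_of_le_of_lt ?_ hm
  rw [LaurentSeries.valuation_le_iff_coeff_lt_eq_zero]
  intro n hn
  rw [HahnSeries.coeff_sub]
  by_cases h0 : n < 0
  · rw [lau_coeff_neg F b n h0, lau_coeff_neg F a n h0, sub_zero]
  · obtain ⟨k, rfl⟩ := Int.eq_ofNat_of_zero_le (not_lt.1 h0)
    rw [lau_coeff, lau_coeff, hb k (by omega), sub_self]

theorem embeds_discrete (F : Type u) [Field F] [TopologicalSpace F] [IsTopologicalDivisionRing F]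
    [DiscreteTopology F] : EmbedsPC F := by
  refine embeds_general F fun W hW => ?_
  refine ⟨F⸨X⸩, inferInstance, inferInstance, inferInstance, inferInstance,
    HahnSeries.C, Or.inr ⟨lau F, lau_continuous F, lau_injective F⟩, continuous_of_discreteTopology,
    {f | Valued.v f < 1}, ?_, ?_⟩
  · rw [Valued.mem_nhds_zero]
    refine ⟨1, ?_⟩
    intro f hf
    have h1 : Valued.v.restrict f < 1 := hf
    rwa [Valuation.restrict_lt_one_iff] at h1
  · intro c hc
    have h1 : Valued.v (HahnSeries.C c : F⸨X⸩) < 1 := hc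
    have h2 : Valued.v (HahnSeries.C c : F⸨X⸩) ≤ WithZero.exp (-(1 : ℤ)) := by
      by_cases h0 : Valued.v (HahnSeries.C c : F⸨X⸩) = 0
      · rw [h0]; exact zero_le
      · rw [← WithZero.exp_log h0, WithZero.exp_le_exp]
        rw [← WithZero.exp_log h0, ← WithZero.exp_zero, WithZero.exp_lt_exp] at h1
        omega
    rw [LaurentSeries.valuation_le_iff_coeff_lt_eq_zero] at h2
    have h3 := h2 0 (by norm_num)
    have h4 : c = 0 := by simpa using h3
    rw [h4]
    exact mem_of_mem_nhds hW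

theorem embeds_countable (F : Type u) [Field F] [TopologicalSpace F] [IsTopologicalDivisionRing F]
    [T2Space F] [Countable F] : EmbedsPC F := by
  by_cases h : DiscreteTopology F
  · exact embeds_discrete F
  · exact embeds_good F (Or.inl ⟨inferInstance, h⟩)

theorem good_of_complete (L : Type u) [Field L] [TopologicalSpace L] [IsTopologicalDivisionRing L]
    [TopologicalSpace.IsCompletelyMetrizableSpace L] (h : ¬ DiscreteTopology L) : GoodTarget L := by
  right
  have hne := neBot_of_not_discrete h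
  let _ := TopologicalSpace.upgradeIsCompletelyMetrizable L
  have hp : PerfectSpace L := by
    rw [perfectSpace_iff_forall_not_isolated]
    intro x
    have h1 : (𝓝[≠] x) = map (fun y => x + y) (𝓝[≠] (0 : L)) := by
      have h2 := (Homeomorph.addLeft x).map_punctured_nhds_eq (0 : L)
      have h3 : (Homeomorph.addLeft x) (0 : L) = x := by simp
      rw [h3] at h2
      exact h2.symm
    rw [h1]
    exact hne.map _
  obtain ⟨f, -, h2, h3⟩ := (PerfectSpace.univ_perfect (α := L)).exists_nat_bool_injection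
    univ_nonempty
  exact ⟨f, h2, h3⟩

theorem result :
    -- every countable (Hausdorff) topological field
    (∀ (F : Type u) [Field F] [TopologicalSpace F] [IsTopologicalDivisionRing F] [T2Space F],
      Countable F → EmbedsPC F) ∧
    -- every topological field which contains a Cantor set
    (∀ (F : Type u) [Field F] [TopologicalSpace F] [IsTopologicalDivisionRing F] [T2Space F],
      (∃ e : (ℕ → Bool) → F, Continuous e ∧ Function.Injective e) → EmbedsPC F) ∧
    -- every topological subfield of a completely metrizable topological field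
    (∀ (F L : Type u) [Field F] [TopologicalSpace F] [IsTopologicalDivisionRing F]
      [Field L] [TopologicalSpace L] [IsTopologicalDivisionRing L]
      [TopologicalSpace.IsCompletelyMetrizableSpace L] (j : F →+* L),
      Topology.IsEmbedding j → EmbedsPC F) ∧
    -- every topological field whose topology is the supremum of topologies pulled back from such
    (∀ (F : Type u) [Field F] [TopologicalSpace F] [IsTopologicalDivisionRing F],
      (∀ W ∈ 𝓝 (0 : F), ∃ (L : Type u) (_ : Field L) (_ : TopologicalSpace L)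
        (_ : IsTopologicalDivisionRing L) (_ : T2Space L) (j : F →+* L), GoodTarget L ∧
        Continuous j ∧ ∃ W' ∈ 𝓝 (0 : L), j ⁻¹' W' ⊆ W) → EmbedsPC F) := by
  refine ⟨?_, ?_, ?_, ?_⟩
  · intro F _ _ _ _ hF
    exact embeds_countable F
  · intro F _ _ _ _ h
    exact embeds_good F (Or.inr h)
  · intro F L _ _ _ _ _ _ _ j hj
    by_cases hd : DiscreteTopology L
    · have : DiscreteTopology F := hj.discreteTopology
      exact embeds_discrete F
    · have hL := good_of_complete L hd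
      refine embeds_general F fun W hW => ?_
      have h1 : 𝓝 (0 : F) = comap j (𝓝 (0 : L)) := by
        have := hj.isInducing.nhds_eq_comap 0
        rwa [map_zero] at this
      rw [h1] at hW
      obtain ⟨W', hW', hWW⟩ := mem_comap.1 hW
      exact ⟨L, inferInstance, inferInstance, inferInstance, inferInstance, j, hL, hj.continuous,
        W', hW', hWW⟩
  · intro F _ _ _ h
    exact embeds_general F h

end final

end Pool.Agent.Results.MP_a60711_al.CountableCantorComplete
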